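/-
Integer weights adapted to families of subspaces.
-/
import Mathlib

namespace W5h64.SB

open Module

section

variable {K V ι : Type*} [Field K] [AddCommGroup V] [Module K V] [FiniteDimensional K V]
  [DecidableEq ι]

theorem exists_weights_inf (P : ι → Submodule K V) (Q₀ : Submodule K V) (T : Finset ι) :
    ∃ b : ι → ℕ, ∑ i ∈ T, b i + finrank K ↥(Q₀ ⊓ T.inf P) = finrank K Q₀ ∧
      ∀ (X : Submodule K V) (I : ι → ℕ), X ≤ Q₀ → (∀ i ∈ T, ¬ X ≤ P i → 1 ≤ I i) →
        finrank K X ≤ ∑ i ∈ T, b i * I i + finrank K ↥(X ⊓ T.inf P) := by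
  induction T using Finset.induction_on with
  | empty =>
    refine ⟨fun _ => 0, ?_, fun X I hX _ => ?_⟩
    · rw [Finset.inf_empty, inf_top_eq, Finset.sum_empty, zero_add]
    · rw [Finset.inf_empty, inf_top_eq, Finset.sum_empty, zero_add]
  | insert t T ht ih =>
    obtain ⟨b, hb, hX⟩ := ih
    have hle : finrank K ↥(Q₀ ⊓ T.inf P ⊓ P t) ≤ finrank K ↥(Q₀ ⊓ T.inf P) :=
      Submodule.finrank_mono inf_le_left
    let β := finrank K ↥(Q₀ ⊓ T.inf P) - finrank K ↥(Q₀ ⊓ T.inf P ⊓ P t)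
    have hβ : β + finrank K ↥(Q₀ ⊓ T.inf P ⊓ P t) = finrank K ↥(Q₀ ⊓ T.inf P) :=
      Nat.sub_add_cancel hle
    have hne : ∀ i ∈ T, i ≠ t := by
      rintro i hi rfl
      exact ht hi
    have hsum : ∀ I : ι → ℕ, ∑ i ∈ T, (Function.update b t β) i * I i = ∑ i ∈ T, b i * I i :=
      fun I => Finset.sum_congr rfl fun i hi => by
        rw [Function.update_of_ne (hne i hi)]
    have hsum' : ∑ i ∈ T, (Function.update b t β) i = ∑ i ∈ T, b i :=
      Finset.sum_congr rfl fun i hi => by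
        rw [Function.update_of_ne (hne i hi)]
    have hinf : ∀ Y : Submodule K V, Y ⊓ (insert t T).inf P = Y ⊓ T.inf P ⊓ P t := by
      intro Y
      rw [Finset.inf_insert, inf_comm (P t), ← inf_assoc]
    refine ⟨Function.update b t β, ?_, fun X I hXQ hI => ?_⟩
    · rw [Finset.sum_insert ht, Function.update_self, hsum', hinf]
      omega
    · rw [Finset.sum_insert ht, Function.update_self, hsum, hinf]
      have h1 := hX X I hXQ fun i hi => hI i (Finset.mem_insert_of_mem hi)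
      by_cases hP : X ≤ P t
      · have h2 : X ⊓ T.inf P ⊓ P t = X ⊓ T.inf P :=
          inf_eq_left.2 (inf_le_left.trans hP)
        rw [h2]
        have := Nat.zero_le (β * I t)
        omega
      · have h2 := hI t (Finset.mem_insert_self t T) hP
        have h3 : β ≤ β * I t := Nat.le_mul_of_pos_right _ h2
        have h4 := Submodule.finrank_sup_add_finrank_inf_eq (X ⊓ T.inf P) (Q₀ ⊓ T.inf P ⊓ P t)
        have h5 : finrank K ↥((X ⊓ T.inf P) ⊔ (Q₀ ⊓ T.inf P ⊓ P t)) ≤
            finrank K ↥(Q₀ ⊓ T.inf P) :=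
          Submodule.finrank_mono (sup_le (inf_le_inf_right _ hXQ) inf_le_left)
        have h6 : finrank K ↥((X ⊓ T.inf P) ⊓ (Q₀ ⊓ T.inf P ⊓ P t)) ≤
            finrank K ↥(X ⊓ T.inf P ⊓ P t) :=
          Submodule.finrank_mono (inf_le_inf_left _ inf_le_right)
        omega

theorem exists_weights_sup (U : ι → Submodule K V) (G₀ : Submodule K V) (T : Finset ι) :
    ∃ b : ι → ℕ, finrank K G₀ + ∑ i ∈ T, b i = finrank K ↥(G₀ ⊔ T.sup U) ∧
      ∀ (X : Submodule K V) (I : ι → ℕ), (∀ i ∈ T, I i ≤ 1) → (∀ i ∈ T, I i ≠ 0 → U i ≤ X) →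
        finrank K ↥(X ⊓ G₀) + ∑ i ∈ T, b i * I i ≤ finrank K ↥(X ⊓ (G₀ ⊔ T.sup U)) := by
  induction T using Finset.induction_on with
  | empty =>
    refine ⟨fun _ => 0, ?_, fun X I _ _ => ?_⟩
    · rw [Finset.sup_empty, sup_bot_eq, Finset.sum_empty, add_zero]
    · rw [Finset.sup_empty, sup_bot_eq, Finset.sum_empty, add_zero]
  | insert t T ht ih =>
    obtain ⟨b, hb, hX⟩ := ih
    have hsup : G₀ ⊔ (insert t T).sup U = (G₀ ⊔ T.sup U) ⊔ U t := by
      rw [Finset.sup_insert, sup_comm (U t), ← sup_assoc]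
    let β := finrank K ↥((G₀ ⊔ T.sup U) ⊔ U t) - finrank K ↥(G₀ ⊔ T.sup U)
    have hle : finrank K ↥(G₀ ⊔ T.sup U) ≤ finrank K ↥((G₀ ⊔ T.sup U) ⊔ U t) :=
      Submodule.finrank_mono le_sup_left
    have hβ : β + finrank K ↥(G₀ ⊔ T.sup U) = finrank K ↥((G₀ ⊔ T.sup U) ⊔ U t) :=
      Nat.sub_add_cancel hle
    have hne : ∀ i ∈ T, i ≠ t := by
      rintro i hi rfl
      exact ht hi
    have hsum : ∀ I : ι → ℕ, ∑ i ∈ T, (Function.update b t β) i * I i = ∑ i ∈ T, b i * I i :=
      fun I => Finset.sum_congr rfl fun i hi => by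
        rw [Function.update_of_ne (hne i hi)]
    have hsum' : ∑ i ∈ T, (Function.update b t β) i = ∑ i ∈ T, b i :=
      Finset.sum_congr rfl fun i hi => by
        rw [Function.update_of_ne (hne i hi)]
    refine ⟨Function.update b t β, ?_, fun X I hI1 hI => ?_⟩
    · rw [Finset.sum_insert ht, Function.update_self, hsum', hsup]
      omega
    · rw [Finset.sum_insert ht, Function.update_self, hsum, hsup]
      have h1 := hX X I (fun i hi => hI1 i (Finset.mem_insert_of_mem hi))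
        (fun i hi => hI i (Finset.mem_insert_of_mem hi))
      have h7 : finrank K ↥(X ⊓ (G₀ ⊔ T.sup U)) ≤ finrank K ↥(X ⊓ ((G₀ ⊔ T.sup U) ⊔ U t)) :=
        Submodule.finrank_mono (inf_le_inf_left _ le_sup_left)
      by_cases h0 : I t = 0
      · rw [h0, mul_zero]
        omega
      · have hIt : I t = 1 := by
          have := hI1 t (Finset.mem_insert_self t T)
          omega
        have hU := hI t (Finset.mem_insert_self t T) h0
        rw [hIt, mul_one]
        have h4 := Submodule.finrank_sup_add_finrank_inf_eq (X ⊓ (G₀ ⊔ T.sup U)) (U t)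
        have h5 := Submodule.finrank_sup_add_finrank_inf_eq (G₀ ⊔ T.sup U) (U t)
        have h6 : finrank K ↥((X ⊓ (G₀ ⊔ T.sup U)) ⊔ U t) ≤
            finrank K ↥(X ⊓ ((G₀ ⊔ T.sup U) ⊔ U t)) :=
          Submodule.finrank_mono (sup_le (inf_le_inf_left _ le_sup_left) (le_inf hU le_sup_right))
        have h8 : finrank K ↥((X ⊓ (G₀ ⊔ T.sup U)) ⊓ U t) ≤
            finrank K ↥((G₀ ⊔ T.sup U) ⊓ U t) :=
          Submodule.finrank_mono (inf_le_inf_right _ inf_le_right)
        omega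

end

end W5h64.SB
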