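/-
A brick with at most one repeated simple composition factor is stable.
-/
import Pool.Agent.W5h64.SB.Flag

namespace W5h64.SB

open Module

section

variable {K A V : Type*} [Field K] [Ring A] [Algebra K A] [AddCommGroup V] [Module K V]
  [Module A V] [IsScalarTower K A V] [FiniteDimensional K V]
  {ι : Type*} [Fintype ι] [DecidableEq ι]

variable (K V) in
/-- The action of `a`. -/
abbrev act (a : A) : V →ₗ[K] V := Algebra.lsmul K K V a

variable (K) in
/-- The dimension of `e_i N`. -/
noncomputable def dv (e : ι → A) (N : Submodule A V) (i : ι) : ℕ :=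
  finrank K ↥((N.restrictScalars K).map (act K V (e i)))

variable {e : ι → A} (he : CompleteOrthogonalIdempotents e)

include he in
theorem sum_smul_eq (v : V) : ∑ i, e i • v = v := by
  rw [← Finset.sum_smul, he.complete, one_smul]

include he in
theorem idem_smul (i : ι) (v : V) : e i • e i • v = e i • v := by
  rw [← mul_smul, (he.idem i).eq]

include he in
theorem ortho_smul {i j : ι} (h : i ≠ j) (v : V) : e i • e j • v = 0 := by
  rw [← mul_smul, he.ortho h, zero_smul]

theorem smul_mem_of_dv {N : Submodule A V} {i : ι} (h1 : dv K e (⊤ : Submodule A V) i ≤ 1)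
    (h2 : dv K e N i ≠ 0) (v : V) : e i • v ∈ N := by
  have hle : (N.restrictScalars K).map (act K V (e i)) ≤
      ((⊤ : Submodule A V).restrictScalars K).map (act K V (e i)) :=
    Submodule.map_mono (fun x _ => Submodule.mem_top)
  have heq := Submodule.eq_of_le_of_finrank_le hle (by
    change dv K e (⊤ : Submodule A V) i ≤ dv K e N i
    omega)
  have h3 : e i • v ∈ ((⊤ : Submodule A V).restrictScalars K).map (act K V (e i)) :=
    ⟨v, Submodule.mem_top, rfl⟩
  rw [← heq] at h3
  obtain ⟨w, hw, hw'⟩ := h3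
  rw [← hw']
  exact N.smul_mem _ hw

theorem smul_eq_zero_of_dv {N : Submodule A V} {i : ι} (h : dv K e N i = 0) {v : V}
    (hv : v ∈ N) : e i • v = 0 := by
  have h1 : (N.restrictScalars K).map (act K V (e i)) = ⊥ := Submodule.finrank_eq_zero.1 h
  have h2 : e i • v ∈ (N.restrictScalars K).map (act K V (e i)) := ⟨v, hv, rfl⟩
  rw [h1] at h2
  exact (Submodule.mem_bot K).1 h2

theorem dv_ne_zero {N : Submodule A V} {i : ι} {v : V} (hv : v ∈ N) (h : e i • v ≠ 0) :
    dv K e N i ≠ 0 := fun h0 => h (smul_eq_zero_of_dv h0 hv)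

theorem dv_mono {N N' : Submodule A V} (h : N ≤ N') (i : ι) : dv K e N i ≤ dv K e N' i :=
  Submodule.finrank_mono (Submodule.map_mono h)

/-- The largest submodule `P` with `e_i P = 0`. -/
def PP (V : Type*) [AddCommGroup V] [Module A V] (x : A) : Submodule A V where
  carrier := {v | ∀ a : A, (x * a) • v = 0}
  add_mem' {v w} hv hw a := by rw [smul_add, hv a, hw a, add_zero]
  zero_mem' a := smul_zero _
  smul_mem' b v hv a := by
    rw [← mul_smul, mul_assoc]
    exact hv _

/-- The submodule generated by `e_i V`. -/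
def UU (V : Type*) [AddCommGroup V] [Module A V] (x : A) : Submodule A V :=
  Submodule.span A {v | ∃ w, v = x • w}

theorem smul_mem_UU (x : A) (w : V) : x • w ∈ UU V x := Submodule.subset_span ⟨w, rfl⟩

theorem UU_le {x : A} {N : Submodule A V} (h : ∀ w, x • w ∈ N) : UU V x ≤ N := by
  refine Submodule.span_le.2 ?_
  rintro _ ⟨w, rfl⟩
  exact h w

/-- Bricks. -/
def Brick (K A V : Type*) [Field K] [Ring A] [AddCommGroup V] [Module K V] [Module A V] : Prop :=
  ∀ φ : V →ₗ[A] V, ∃ c : K, ∀ v, φ v = c • v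

omit [FiniteDimensional K V] [IsScalarTower K A V] [Algebra K A] in
theorem Brick.indec (hb : Brick K A V) {N N' : Submodule A V} (h : IsCompl N N') :
    N = ⊥ ∨ N' = ⊥ := by
  obtain ⟨c, hc⟩ := hb (N.subtype ∘ₗ N.projectionOnto N' h)
  by_contra hcon
  rw [not_or] at hcon
  obtain ⟨x, hx, hx0⟩ := (Submodule.ne_bot_iff _).1 hcon.1
  obtain ⟨y, hy, hy0⟩ := (Submodule.ne_bot_iff _).1 hcon.2
  have h1 := hc x
  have h2 := hc y
  rw [LinearMap.comp_apply, Submodule.projectionOnto_apply_left h ⟨x, hx⟩] at h1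
  rw [LinearMap.comp_apply, Submodule.projectionOnto_apply_right h ⟨y, hy⟩] at h2
  change x = c • x at h1
  rw [map_zero] at h2
  have h3 : c = 0 := by
    rcases smul_eq_zero.1 h2.symm with h | h
    · exact h
    · exact absurd h hy0
  rw [h3, zero_smul] at h1
  exact hx0 h1

include he in
/-- Either no submodule is concentrated at `j`, or no quotient is, or the module is simple. -/
theorem socle_or_top [Module.Finite K A] (hb : Brick K A V) (j : ι)
    (hj : ∀ a : A, ∃ c : K, e j * a * e j - c • e j ∈ Ring.jacobson A) :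
    (∀ v : V, (∀ i, i ≠ j → ∀ a : A, (e i * a) • v = 0) → v = 0) ∨
    (∀ M : Submodule A V, (∀ i, i ≠ j → ∀ v : V, e i • v ∈ M) → M = ⊤) ∨
    (∀ N : Submodule A V, N = ⊥ ∨ N = ⊤) := by
  have hart : IsArtinian A V := isArtinian_of_tower K inferInstance
  have hnoe : IsNoetherian A V := isNoetherian_of_tower K inferInstance
  by_contra hcon
  rw [not_or, not_or] at hcon
  obtain ⟨hc1, hc2, hc3⟩ := hcon
  push Not at hc1 hc2
  obtain ⟨v₀, hv₀, hv₀0⟩ := hc1
  obtain ⟨M₀, hM₀, hM₀t⟩ := hc2
  apply hc3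
  let Z : Submodule A V :=
    { carrier := {v | ∀ i, i ≠ j → ∀ a : A, (e i * a) • v = 0}
      add_mem' := fun {v w} hv hw i hi a => by rw [smul_add, hv i hi a, hw i hi a, add_zero]
      zero_mem' := fun i _ a => smul_zero _
      smul_mem' := fun b v hv i hi a => by
        rw [← mul_smul, mul_assoc]
        exact hv i hi _ }
  have hZ : Z ≠ ⊥ := (Submodule.ne_bot_iff _).2 ⟨v₀, hv₀, hv₀0⟩
  obtain ⟨S, hS, hSZ⟩ := (eq_bot_or_exists_atom_le Z).resolve_left hZ
  obtain ⟨M, hM, hM₀M⟩ := (eq_top_or_exists_le_coatom M₀).resolve_left hM₀t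
  have hSs : IsSimpleModule A S := isSimpleModule_iff_isAtom.2 hS
  have hMs : IsSimpleModule A (V ⧸ M) := isSimpleModule_iff_isCoatom.2 hM
  have hJS : ∀ a ∈ Ring.jacobson A, ∀ s ∈ S, a • s = 0 := by
    intro a ha s hs
    have h1 := IsSemisimpleModule.jacobson_le_annihilator A S ha
    have h2 := Module.mem_annihilator.1 h1 ⟨s, hs⟩
    exact congrArg Subtype.val h2
  have hJM : ∀ a ∈ Ring.jacobson A, ∀ v : V, a • v ∈ M := by
    intro a ha v
    have h1 := IsSemisimpleModule.jacobson_le_annihilator A (V ⧸ M) ha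
    have h2 := Module.mem_annihilator.1 h1 (Submodule.Quotient.mk v)
    rw [← Submodule.Quotient.mk_smul, Submodule.Quotient.mk_eq_zero] at h2
    exact h2
  obtain ⟨s, hs, hs0⟩ := (Submodule.ne_bot_iff _).1 hS.1
  have hMe : ∀ i, i ≠ j → ∀ v : V, e i • v ∈ M := fun i hi v => hM₀M (hM₀ i hi v)
  -- a functional vanishing on `M`
  obtain ⟨w₀, hw₀⟩ : ∃ w : V, w ∉ M := by
    by_contra h
    push Not at h
    exact hM.1 (eq_top_iff.2 fun x _ => h x)
  obtain ⟨l, hl, hlM⟩ := Submodule.exists_dual_map_eq_bot_of_notMem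
    (p := M.restrictScalars K) (x := w₀) hw₀ inferInstance
  have hlM' : ∀ v ∈ M, l v = 0 := by
    intro v hv
    have h1 : l v ∈ (M.restrictScalars K).map l := ⟨v, hv, rfl⟩
    rw [hlM] at h1
    exact (Submodule.mem_bot K).1 h1
  have hes : ∀ i, i ≠ j → ∀ a : A, (e i * a) • s = 0 := hSZ hs
  have hejs : e j • s = s := by
    have h1 := sum_smul_eq he s
    rw [Finset.sum_eq_single j (fun i _ hi => by
      have := hes i hi 1
      rwa [mul_one] at this) (fun h => absurd (Finset.mem_univ j) h)] at h1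
    exact h1
  have key : ∀ (a : A) (v : V), l (a • v) • s = a • (l v • s) := by
    intro a v
    obtain ⟨c, hc⟩ := hj a
    have h1 : a • s = c • s := by
      have h2 : a • s = (e j * a * e j) • s := by
        have h3 := sum_smul_eq he (a • s)
        rw [Finset.sum_eq_single j (fun i _ hi => by
          rw [← mul_smul]
          exact hes i hi a) (fun h => absurd (Finset.mem_univ j) h)] at h3
        rw [← h3, mul_smul, hejs, mul_smul]
      have h4 := hJS _ hc s hs
      rw [sub_smul, sub_eq_zero] at h4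
      rw [h2, h4, smul_assoc, hejs]
    have h5 : l (a • v) = c * l v := by
      have h6 : a • v - c • v ∈ M := by
        have h7 : a • (v - e j • v) ∈ M := by
          refine M.smul_mem _ ?_
          have h8 := sum_smul_eq he v
          rw [← Finset.add_sum_erase _ _ (Finset.mem_univ j)] at h8
          have h9 : v - e j • v = ∑ i ∈ Finset.univ.erase j, e i • v := by
            rw [sub_eq_iff_eq_add, add_comm]
            exact h8.symm
          rw [h9]
          exact Submodule.sum_mem _ fun i hi => hMe i (Finset.ne_of_mem_erase hi) v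
        have h10 : a • e j • v - (e j * a * e j) • v ∈ M := by
          have h8 := sum_smul_eq he (a • e j • v)
          rw [← Finset.add_sum_erase _ _ (Finset.mem_univ j)] at h8
          have h9 : a • e j • v - (e j * a * e j) • v =
              ∑ i ∈ Finset.univ.erase j, e i • a • e j • v := by
            rw [sub_eq_iff_eq_add, add_comm, mul_smul, mul_smul]
            exact h8.symm
          rw [h9]
          exact Submodule.sum_mem _ fun i hi => hMe i (Finset.ne_of_mem_erase hi) _
        have h11 := hJM _ hc v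
        rw [sub_smul, smul_assoc] at h11
        have h12 : c • (e j • v - v) ∈ M := by
          have h8 := sum_smul_eq he v
          rw [← Finset.add_sum_erase _ _ (Finset.mem_univ j)] at h8
          have h9 : e j • v - v = - ∑ i ∈ Finset.univ.erase j, e i • v := by
            rw [eq_neg_iff_add_eq_zero, sub_add_eq_add_sub, h8, sub_self]
          rw [h9]
          refine (M.restrictScalars K).smul_mem c ?_
          exact Submodule.neg_mem _ (Submodule.sum_mem _ fun i hi =>
            hMe i (Finset.ne_of_mem_erase hi) v)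
        have h13 := M.add_mem (M.add_mem (M.add_mem h7 h10) h11) h12
        have h14 : a • (v - e j • v) + (a • e j • v - (e j * a * e j) • v) +
            ((e j * a * e j) • v - c • e j • v) + c • (e j • v - v) = a • v - c • v := by
          rw [smul_sub, smul_sub]
          abel
        rwa [h14] at h13
      have h15 := hlM' _ h6
      rw [map_sub, sub_eq_zero, LinearMap.map_smul l c v, smul_eq_mul] at h15
      exact h15
    rw [h5, smul_comm a (l v) s, h1, mul_comm, mul_smul]
  let φ : V →ₗ[A] V :=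
    { toFun := fun v => l v • s
      map_add' := fun v w => by rw [map_add, add_smul]
      map_smul' := fun a v => key a v }
  obtain ⟨c, hc⟩ := hb φ
  have hc' : ∀ v, l v • s = c • v := hc
  have hc0 : c ≠ 0 := by
    rintro rfl
    have h1 := hc' w₀
    rw [zero_smul] at h1
    rcases smul_eq_zero.1 h1 with h | h
    · exact hl h
    · exact hs0 h
  intro N
  by_cases hN : N = ⊥
  · exact Or.inl hN
  · right
    obtain ⟨x, hx, hx0⟩ := (Submodule.ne_bot_iff _).1 hN
    have h1 := hc' x
    have h2 : l x ≠ 0 := by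
      intro h
      rw [h, zero_smul] at h1
      rcases smul_eq_zero.1 h1.symm with h | h
      · exact hc0 h
      · exact hx0 h
    have h3 : s ∈ N := by
      have h4 : s = (l x)⁻¹ • (c • x) := by
        rw [← h1, smul_smul, inv_mul_cancel₀ h2, one_smul]
      rw [h4]
      exact (N.restrictScalars K).smul_mem _ ((N.restrictScalars K).smul_mem _ hx)
    rw [eq_top_iff]
    intro y _
    have h5 := hc' y
    have h6 : y = c⁻¹ • (l y • s) := by
      rw [h5, smul_smul, inv_mul_cancel₀ hc0, one_smul]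
    rw [h6]
    exact (N.restrictScalars K).smul_mem _ ((N.restrictScalars K).smul_mem _ h3)

/-- Weights for which the module is semistable. -/
def Valid (K : Type*) {A : Type*} (V : Type*) [Field K] [Ring A] [Algebra K A] [AddCommGroup V]
    [Module K V] [Module A V] [IsScalarTower K A V] (e : ι → A) (c : ι → ℤ) : Prop :=
  ∑ i, c i * (dv K e (⊤ : Submodule A V) i : ℤ) = 0 ∧
    ∀ N : Submodule A V, ∑ i, c i * (dv K e N i : ℤ) ≤ 0

/-- A weight supported on `j`, `T₁`, `T₂`. -/
def wt (j : ι) (s : ℤ) (T₁ T₂ : Finset (ι)) (b₁ b₂ : ι → ℤ) (i : ι) : ℤ :=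
  (if i = j then s else 0) + (if i ∈ T₁ then b₁ i else 0) + (if i ∈ T₂ then b₂ i else 0)

theorem sum_wt (j : ι) (s : ℤ) (T₁ T₂ : Finset (ι)) (b₁ b₂ : ι → ℤ)
    (ν : ι → ℤ) :
    ∑ i, wt j s T₁ T₂ b₁ b₂ i * ν i =
      s * ν j + ∑ i ∈ T₁, b₁ i * ν i + ∑ i ∈ T₂, b₂ i * ν i := by
  simp only [wt, add_mul, Finset.sum_add_distrib, ite_mul, zero_mul, Finset.sum_ite_eq',
    Finset.mem_univ, if_true, Finset.sum_ite_mem, Finset.univ_inter]

include he in
theorem exists_weight (hb : ∀ N N' : Submodule A V, IsCompl N N' → N = ⊥ ∨ N' = ⊥) (j : ι)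
    (hj : (∀ v : V, (∀ i, i ≠ j → ∀ a : A, (e i * a) • v = 0) → v = 0) ∨
      (∀ M : Submodule A V, (∀ i, i ≠ j → ∀ v : V, e i • v ∈ M) → M = ⊤))
    (hthin : ∀ i, i ≠ j → dv K e (⊤ : Submodule A V) i ≤ 1)
    (N : Submodule A V) (hN : N ≠ ⊥) (hNt : N ≠ ⊤) :
    ∃ c : ι → ℤ, Valid K V e c ∧ ∑ i, c i * (dv K e N i : ℤ) < 0 := by
  classical
  have hle1 : ∀ (M : Submodule A V) (i : ι), i ≠ j → dv K e M i ≤ 1 := fun M i hi =>
    (dv_mono le_top i).trans (hthin i hi)
  -- first case: a path from outside `N` into `N`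
  by_cases hpath : ∃ i i' : ι, i ≠ j ∧ i' ≠ j ∧ dv K e N i = 0 ∧ dv K e N i' ≠ 0 ∧
      ∃ (a : A) (v : V), e i' • a • e i • v ≠ 0
  · obtain ⟨i, i', hi, hi', h0, h1, a, v, hav⟩ := hpath
    have himp : ∀ M : Submodule A V, dv K e M i ≤ dv K e M i' := by
      intro M
      by_cases hMi : dv K e M i = 0
      · omega
      · have h2 := smul_mem_of_dv (hthin i hi) hMi v
        have h3 := dv_ne_zero (K := K) (M.smul_mem a h2) hav
        have h4 := hle1 M i hi
        omega
    have hsum : ∀ ν : ι → ℤ,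
        ∑ l, wt i 1 {i'} ∅ (fun _ => -1) (fun _ => 0) l * ν l = ν i - ν i' := by
      intro ν
      rw [sum_wt i 1 {i'} ∅ (fun _ => -1) (fun _ => 0) ν, Finset.sum_singleton,
        Finset.sum_empty]
      ring
    have htop : ∀ l, l ≠ j → (∃ w : V, e l • w ≠ 0) → dv K e (⊤ : Submodule A V) l = 1 := by
      rintro l hl ⟨w, hw⟩
      have h2 := dv_ne_zero (K := K) (Submodule.mem_top (x := w) (R := A)) hw
      have h3 := hthin l hl
      omega
    refine ⟨wt i 1 {i'} ∅ (fun _ => -1) (fun _ => 0), ⟨?_, fun M => ?_⟩, ?_⟩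
    · rw [hsum, htop i hi ⟨v, fun h => hav (by rw [h, smul_zero, smul_zero])⟩,
        htop i' hi' ⟨_, hav⟩]
      norm_num
    · rw [hsum]
      have := himp M
      omega
    · rw [hsum]
      omega
  have hpath' : ∀ i i' : ι, i ≠ j → i' ≠ j → dv K e N i = 0 → dv K e N i' ≠ 0 →
      ∀ (a : A) (v : V), e i' • a • e i • v = 0 := by
    intro i i' hi hi' h0 h1 a v
    by_contra h
    exact hpath ⟨i, i', hi, hi', h0, h1, a, v, h⟩
  let T₁ : Finset (ι) := Finset.univ.filter fun i => i ≠ j ∧ dv K e N i ≠ 0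
  let T₂ : Finset (ι) := Finset.univ.filter fun i => i ≠ j ∧ dv K e N i = 0 ∧
    dv K e (⊤ : Submodule A V) i ≠ 0
  have hT₁ : ∀ i, i ∈ T₁ ↔ i ≠ j ∧ dv K e N i ≠ 0 := fun i => by simp [T₁]
  have hT₂ : ∀ i, i ∈ T₂ ↔ i ≠ j ∧ dv K e N i = 0 ∧ dv K e (⊤ : Submodule A V) i ≠ 0 :=
    fun i => by simp [T₂]
  have hT : ∀ i, i ≠ j → i ∈ T₁ ∨ i ∈ T₂ ∨ ∀ v : V, e i • v = 0 := fun i hi => by
    rw [hT₁, hT₂]
    by_cases h : dv K e N i = 0
    · by_cases h' : dv K e (⊤ : Submodule A V) i = 0
      · exact Or.inr (Or.inr fun v => smul_eq_zero_of_dv h' Submodule.mem_top)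
      · exact Or.inr (Or.inl ⟨hi, h, h'⟩)
    · exact Or.inl ⟨hi, h⟩
  have ht₁ : ∀ i ∈ T₁, dv K e (⊤ : Submodule A V) i = 1 := by
    intro i hi
    have h1 := (hT₁ i).1 hi
    have h2 := dv_mono (K := K) (e := e) (le_top (a := N)) i
    have h3 := hthin i h1.1
    omega
  have ht₂ : ∀ i ∈ T₂, dv K e (⊤ : Submodule A V) i = 1 := by
    intro i hi
    have h1 := (hT₂ i).1 hi
    have h3 := hthin i h1.1
    omega
  have hn₁ : ∀ i ∈ T₁, dv K e N i = 1 := by
    intro i hi
    have h1 := (hT₁ i).1 hi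
    have h3 := hle1 N i h1.1
    omega
  have hn₂ : ∀ i ∈ T₂, dv K e N i = 0 := fun i hi => ((hT₂ i).1 hi).2.1
  let L : V →ₗ[K] V := act K V (e j)
  let W : Submodule K V := LinearMap.range L
  have hLW : ∀ v ∈ W, e j • v = v := by
    rintro _ ⟨v, rfl⟩
    exact idem_smul he j v
  have hmapW : ∀ M : Submodule A V, (M.restrictScalars K).map L = (M.restrictScalars K) ⊓ W := by
    intro M
    ext v
    constructor
    · rintro ⟨w, hw, rfl⟩
      exact ⟨M.smul_mem _ hw, w, rfl⟩
    · rintro ⟨hv, hvW⟩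
      exact ⟨v, hv, hLW v hvW⟩
  have hdvj : ∀ M : Submodule A V, dv K e M j = finrank K ↥((M.restrictScalars K) ⊓ W) := by
    intro M
    rw [← hmapW]
    rfl
  have hdvjt : dv K e (⊤ : Submodule A V) j = finrank K W := by
    rw [hdvj]
    have : ((⊤ : Submodule A V).restrictScalars K) ⊓ W = W := by
      rw [inf_eq_right]
      exact fun x _ => Submodule.mem_top
    rw [this]
  have hfin : ∀ N' : Submodule A V, N ⊓ N' = ⊥ → N ⊔ N' = ⊤ → False := by
    intro N' h1 h2
    rcases hb _ _ (IsCompl.of_eq h1 h2) with h | h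
    · exact hN h
    · rw [h, sup_bot_eq] at h2
      exact hNt h2
  have hsumN : ∀ b : ι → ℕ, ∑ i ∈ T₁, (b i : ℤ) * (dv K e N i : ℤ) = ∑ i ∈ T₁, (b i : ℤ) :=
    fun b => Finset.sum_congr rfl fun i hi => by rw [hn₁ i hi, Nat.cast_one, mul_one]
  have hsumN' : ∀ b : ι → ℕ, ∑ i ∈ T₂, (b i : ℤ) * (dv K e N i : ℤ) = 0 :=
    fun b => Finset.sum_eq_zero fun i hi => by rw [hn₂ i hi, Nat.cast_zero, mul_zero]
  have hsumT : ∀ b : ι → ℕ, ∑ i ∈ T₁, (b i : ℤ) * (dv K e (⊤ : Submodule A V) i : ℤ) =
      ∑ i ∈ T₁, (b i : ℤ) :=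
    fun b => Finset.sum_congr rfl fun i hi => by rw [ht₁ i hi, Nat.cast_one, mul_one]
  have hsumT' : ∀ b : ι → ℕ, ∑ i ∈ T₂, (b i : ℤ) * (dv K e (⊤ : Submodule A V) i : ℤ) =
      ∑ i ∈ T₂, (b i : ℤ) :=
    fun b => Finset.sum_congr rfl fun i hi => by rw [ht₂ i hi, Nat.cast_one, mul_one]
  have hneg : ∀ (T : Finset (ι)) (b : ι → ℕ) (ν : ι → ℤ),
      ∑ i ∈ T, (-(b i : ℤ)) * ν i = -∑ i ∈ T, (b i : ℤ) * ν i := by
    intro T b ν
    rw [← Finset.sum_neg_distrib]
    exact Finset.sum_congr rfl fun i _ => neg_mul _ _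
  rcases hj with hsoc | htop
  · -- no submodule is concentrated at `j`
    let P : ι → Submodule K V := fun i => (PP V (e i)).restrictScalars K
    obtain ⟨b₁, hb₁, hX₁⟩ := exists_weights_inf P W T₁
    obtain ⟨b₂, hb₂, hX₂⟩ := exists_weights_inf P (W ⊓ T₁.inf P) T₂
    have hPnot : ∀ (M : Submodule A V) (i : ι),
        ¬ (M.restrictScalars K) ⊓ W ≤ P i → 1 ≤ dv K e M i := by
      intro M i h
      by_contra h0
      apply h
      rintro x ⟨hxM, _⟩ a
      rw [mul_smul]
      exact smul_eq_zero_of_dv (K := K) (by omega) (M.smul_mem a hxM)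
    have hZ : W ⊓ T₁.inf P ⊓ T₂.inf P = ⊥ := by
      rw [eq_bot_iff]
      rintro x ⟨⟨hxW, hx1⟩, hx2⟩
      refine (Submodule.mem_bot K).2 (hsoc x fun i hi a => ?_)
      rcases hT i hi with h | h | h
      · exact (Submodule.mem_finsetInf.1 hx1 i h) a
      · exact (Submodule.mem_finsetInf.1 hx2 i h) a
      · rw [mul_smul]
        exact h _
    rw [hZ, finrank_bot, add_zero] at hb₂
    have hvalid : ∀ M : Submodule A V, dv K e M j ≤
        ∑ i ∈ T₁, b₁ i * dv K e M i + ∑ i ∈ T₂, b₂ i * dv K e M i := by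
      intro M
      have h1 := hX₁ ((M.restrictScalars K) ⊓ W) (dv K e M) inf_le_right
        (fun i _ h => hPnot M i h)
      have h2 := hX₂ ((M.restrictScalars K) ⊓ W ⊓ T₁.inf P) (dv K e M)
        (inf_le_inf_right _ inf_le_right)
        (fun i _ h => hPnot M i fun h' => h (inf_le_left.trans h'))
      have h3 : (M.restrictScalars K) ⊓ W ⊓ T₁.inf P ⊓ T₂.inf P = ⊥ := by
        rw [eq_bot_iff, ← hZ]
        exact inf_le_inf_right _ (inf_le_inf_right _ inf_le_right)
      rw [h3, finrank_bot] at h2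
      rw [hdvj]
      omega
    by_cases hlt : dv K e N j + finrank K ↥(W ⊓ T₁.inf P) < finrank K W
    · refine ⟨wt j 1 T₁ T₂ (fun i => -(b₁ i : ℤ)) (fun i => -(b₂ i : ℤ)),
        ⟨?_, fun M => ?_⟩, ?_⟩
      · rw [sum_wt, hneg, hneg, hsumT, hsumT', hdvjt]
        zify at hb₁ hb₂
        omega
      · rw [sum_wt, hneg, hneg]
        have h1 := hvalid M
        zify at h1
        omega
      · rw [sum_wt, hneg, hneg, hsumN, hsumN']
        zify at hb₁ hlt
        omega
    · exfalso
      let N' : Submodule A V := T₁.inf fun i => PP V (e i)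
      have hN' : ∀ v, v ∈ N' ↔ ∀ i ∈ T₁, ∀ a : A, (e i * a) • v = 0 := fun v =>
        Submodule.mem_finsetInf
      have hbot : ∀ v, v ∈ N → v ∈ N' → v = 0 := by
        intro v hv hv'
        refine hsoc v fun i hi a => ?_
        rcases hT i hi with h | h | h
        · exact (hN' v).1 hv' i h a
        · rw [mul_smul]
          exact smul_eq_zero_of_dv (K := K) (hn₂ i h) (N.smul_mem a hv)
        · rw [mul_smul]
          exact h _
      have hY : ∀ y ∈ W ⊓ T₁.inf P, y ∈ N' := fun y hy =>
        (hN' y).2 fun i hi a => (Submodule.mem_finsetInf.1 hy.2 i hi) a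
      have hXY : (N.restrictScalars K) ⊓ W ⊔ (W ⊓ T₁.inf P) = W := by
        refine Submodule.eq_of_le_of_finrank_le (sup_le inf_le_right inf_le_left) ?_
        have h1 := Submodule.finrank_sup_add_finrank_inf_eq
          ((N.restrictScalars K) ⊓ W) (W ⊓ T₁.inf P)
        have h2 : ((N.restrictScalars K) ⊓ W) ⊓ (W ⊓ T₁.inf P) = ⊥ := by
          rw [eq_bot_iff]
          rintro x ⟨⟨hx1, _⟩, hx2⟩
          exact (Submodule.mem_bot K).2 (hbot x hx1 (hY x hx2))
        rw [h2, finrank_bot, ← hdvj] at h1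
        omega
      refine hfin N' ?_ ?_
      · rw [eq_bot_iff]
        rintro x ⟨hx1, hx2⟩
        exact (Submodule.mem_bot A).2 (hbot x hx1 hx2)
      · rw [eq_top_iff]
        intro v _
        rw [← sum_smul_eq he v]
        refine Submodule.sum_mem _ fun i _ => ?_
        by_cases hi : i = j
        · subst hi
          have h1 : e i • v ∈ W := ⟨v, rfl⟩
          rw [← hXY] at h1
          obtain ⟨x, hx, y, hy, hxy⟩ := Submodule.mem_sup.1 h1
          rw [← hxy]
          exact Submodule.add_mem_sup hx.1 (hY y hy)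
        · rcases hT i hi with h | h | h
          · exact Submodule.mem_sup_left
              (smul_mem_of_dv (hthin i hi) ((hT₁ i).1 h).2 v)
          · refine Submodule.mem_sup_right ((hN' _).2 fun i' hi' a => ?_)
            rw [mul_smul]
            exact hpath' i i' hi ((hT₁ i').1 hi').1 (hn₂ i h) ((hT₁ i').1 hi').2 a v
          · rw [h]
            exact Submodule.zero_mem _
  · -- no quotient is concentrated at `j`
    let U : ι → Submodule K V := fun i => (UU V (e i)).restrictScalars K ⊓ W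
    obtain ⟨b₂, hb₂, hX₂⟩ := exists_weights_sup U ⊥ T₂
    obtain ⟨b₁, hb₁, hX₁⟩ := exists_weights_sup U (⊥ ⊔ T₂.sup U) T₁
    -- the component at `j`
    let H : Submodule K V → Submodule A V := fun G =>
      { carrier := {v | ∀ a : A, (e j * a) • v ∈ G}
        add_mem' := fun {v w} hv hw a => by
          rw [smul_add]
          exact G.add_mem (hv a) (hw a)
        zero_mem' := fun a => by
          rw [smul_zero]
          exact G.zero_mem
        smul_mem' := fun b v hv a => by
          rw [← mul_smul, mul_assoc]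
          exact hv _ }
    have hUH : ∀ (G : Submodule K V) (i : ι), U i ≤ G → UU V (e i) ≤ H G := by
      intro G i hG
      refine UU_le fun w a => hG ⟨?_, ?_⟩
      · exact (UU V (e i)).smul_mem _ (smul_mem_UU _ _)
      · rw [mul_smul]
        exact ⟨_, rfl⟩
    have hHj : ∀ (G : Submodule K V) (v : V), v ∈ H G → e j • v ∈ G := by
      intro G v hv
      have h1 := hv 1
      rwa [mul_one] at h1
    have hGW : (⊥ ⊔ T₂.sup U) ⊔ T₁.sup U = W := by
      apply le_antisymm
      · refine sup_le (sup_le bot_le (Finset.sup_le fun i _ => inf_le_right))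
          (Finset.sup_le fun i _ => inf_le_right)
      · intro w hw
        have h1 : H ((⊥ ⊔ T₂.sup U) ⊔ T₁.sup U) = ⊤ := by
          refine htop _ fun i hi v => ?_
          rcases hT i hi with h | h | h
          · exact hUH _ i ((Finset.le_sup h).trans le_sup_right) (smul_mem_UU _ _)
          · exact hUH _ i ((Finset.le_sup h).trans (le_sup_right.trans le_sup_left))
              (smul_mem_UU _ _)
          · rw [h]
            exact Submodule.zero_mem _
        have h2 := hHj _ w (by rw [h1]; exact Submodule.mem_top)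
        rwa [hLW w hw] at h2
    rw [hGW] at hb₁
    rw [finrank_bot, zero_add] at hb₂
    have hvalid : ∀ M : Submodule A V, ∑ i ∈ T₁, b₁ i * dv K e M i +
        ∑ i ∈ T₂, b₂ i * dv K e M i ≤ dv K e M j := by
      intro M
      have hUM : ∀ i, i ≠ j → dv K e M i ≠ 0 → U i ≤ (M.restrictScalars K) ⊓ W := by
        intro i hi h
        refine inf_le_inf_right _ ?_
        exact UU_le (N := M) fun w => smul_mem_of_dv (hthin i hi) h w
      have h1 := hX₂ ((M.restrictScalars K) ⊓ W) (dv K e M)
        (fun i hi => hle1 M i ((hT₂ i).1 hi).1) (fun i hi => hUM i ((hT₂ i).1 hi).1)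
      have h2 := hX₁ ((M.restrictScalars K) ⊓ W) (dv K e M)
        (fun i hi => hle1 M i ((hT₁ i).1 hi).1) (fun i hi => hUM i ((hT₁ i).1 hi).1)
      have h3 : finrank K ↥((M.restrictScalars K) ⊓ W ⊓ ((⊥ ⊔ T₂.sup U) ⊔ T₁.sup U)) ≤
          finrank K ↥((M.restrictScalars K) ⊓ W) := Submodule.finrank_mono inf_le_left
      rw [hdvj]
      omega
    by_cases hlt : finrank K W < finrank K ↥(⊥ ⊔ T₂.sup U) + dv K e N j
    · refine ⟨wt j (-1) T₁ T₂ (fun i => (b₁ i : ℤ)) (fun i => (b₂ i : ℤ)),
        ⟨?_, fun M => ?_⟩, ?_⟩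
      · rw [sum_wt, hsumT, hsumT', hdvjt]
        zify at hb₁ hb₂
        omega
      · rw [sum_wt]
        have h1 := hvalid M
        zify at h1
        omega
      · rw [sum_wt, hsumN, hsumN']
        zify at hb₁ hlt
        omega
    · exfalso
      let N' : Submodule A V := T₂.sup fun i => UU V (e i)
      have htopN : N ⊔ N' = ⊤ := by
        refine htop _ fun i hi v => ?_
        rcases hT i hi with h | h | h
        · exact Submodule.mem_sup_left
            (smul_mem_of_dv (hthin i hi) ((hT₁ i).1 h).2 v)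
        · exact Submodule.mem_sup_right (Finset.le_sup (f := fun i => UU V (e i)) h
            (smul_mem_UU _ _))
        · rw [h]
          exact Submodule.zero_mem _
      have hNH : N' ≤ H (⊥ ⊔ T₂.sup U) :=
        Finset.sup_le fun i hi => hUH _ i ((Finset.le_sup hi).trans le_sup_right)
      have hsupW : W ≤ (N.restrictScalars K) ⊓ W ⊔ (⊥ ⊔ T₂.sup U) := by
        intro w hw
        have h1 : w ∈ N ⊔ N' := by
          rw [htopN]
          exact Submodule.mem_top
        obtain ⟨x, hx, y, hy, hxy⟩ := Submodule.mem_sup.1 h1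
        rw [← hLW w hw, ← hxy, smul_add]
        exact Submodule.add_mem_sup ⟨N.smul_mem _ hx, x, rfl⟩ (hHj _ y (hNH hy))
      have hinf : (N.restrictScalars K) ⊓ W ⊓ (⊥ ⊔ T₂.sup U) = ⊥ := by
        have h1 := Submodule.finrank_sup_add_finrank_inf_eq
          ((N.restrictScalars K) ⊓ W) (⊥ ⊔ T₂.sup U)
        have h2 := Submodule.finrank_mono hsupW
        rw [← hdvj] at h1
        exact Submodule.finrank_eq_zero.1 (by omega)
      refine hfin N' ?_ htopN
      rw [eq_bot_iff]
      rintro v ⟨hv, hv'⟩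
      refine (Submodule.mem_bot A).2 ?_
      rw [← sum_smul_eq he v]
      refine Finset.sum_eq_zero fun i _ => ?_
      by_cases hi : i = j
      · subst hi
        have h1 : e i • v ∈ (N.restrictScalars K) ⊓ W ⊓ (⊥ ⊔ T₂.sup U) :=
          ⟨⟨N.smul_mem _ hv, v, rfl⟩, hHj _ v (hNH hv')⟩
        rw [hinf] at h1
        exact (Submodule.mem_bot K).1 h1
      · rcases hT i hi with h | h | h
        · have h1 : N' ≤ PP V (e i) := by
            refine Finset.sup_le fun i' hi' => UU_le fun w a => ?_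
            rw [mul_smul]
            exact hpath' i' i ((hT₂ i').1 hi').1 hi (hn₂ i' hi') ((hT₁ i).1 h).2 a w
          have h2 := h1 hv' 1
          rwa [mul_one] at h2
        · exact smul_eq_zero_of_dv (K := K) (hn₂ i h) hv
        · exact h v

end

end W5h64.SB
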