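/-
Stability of bricks whose repeated composition factors avoid the socle or the top.
-/
import Pool.Agent.W5h64.SB.Stable

namespace W5h64.SB

open Module

section

variable {K A V : Type*} [Field K] [Ring A] [Algebra K A] [AddCommGroup V] [Module K V]
  [Module A V] [IsScalarTower K A V] [FiniteDimensional K V]
  {ι : Type*} [Fintype ι] [DecidableEq ι]

variable {e : ι → A} (he : CompleteOrthogonalIdempotents e)

include he in
theorem finrank_sum (J : Finset ι) (N : Submodule A V) :
    finrank K ↥((N.restrictScalars K).map (act K V (∑ j ∈ J, e j))) = ∑ j ∈ J, dv K e N j := by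
  induction J using Finset.induction_on with
  | empty =>
    rw [Finset.sum_empty, Finset.sum_empty]
    have h1 : (N.restrictScalars K).map (act K V (0 : A)) = ⊥ := by
      rw [eq_bot_iff]
      rintro _ ⟨v, _, rfl⟩
      exact (Submodule.mem_bot K).2 (zero_smul A v)
    rw [h1, finrank_bot]
  | insert t J ht ih =>
    rw [Finset.sum_insert ht, Finset.sum_insert ht, ← ih]
    have hJt : ∀ v : V, e t • (∑ j ∈ J, e j) • v = 0 := by
      intro v
      rw [Finset.sum_smul, Finset.smul_sum]
      exact Finset.sum_eq_zero fun j hj => ortho_smul he (by rintro rfl; exact ht hj) v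
    have htJ : ∀ v : V, (∑ j ∈ J, e j) • e t • v = 0 := by
      intro v
      rw [Finset.sum_smul]
      exact Finset.sum_eq_zero fun j hj => ortho_smul he (by rintro rfl; exact ht hj) v
    have hJJ : ∀ v : V, (∑ j ∈ J, e j) • (∑ j ∈ J, e j) • v = (∑ j ∈ J, e j) • v := by
      intro v
      rw [← mul_smul, (he.toOrthogonalIdempotents.isIdempotentElem_sum).eq]
    have hsup : (N.restrictScalars K).map (act K V (e t + ∑ j ∈ J, e j)) =
        (N.restrictScalars K).map (act K V (e t)) ⊔
          (N.restrictScalars K).map (act K V (∑ j ∈ J, e j)) := by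
      apply le_antisymm
      · rintro _ ⟨v, hv, rfl⟩
        change (e t + ∑ j ∈ J, e j) • v ∈ _
        rw [add_smul]
        exact Submodule.add_mem_sup ⟨v, hv, rfl⟩ ⟨v, hv, rfl⟩
      · refine sup_le ?_ ?_
        · rintro _ ⟨v, hv, rfl⟩
          refine ⟨e t • v, N.smul_mem _ hv, ?_⟩
          change (e t + ∑ j ∈ J, e j) • e t • v = e t • v
          rw [add_smul, idem_smul he, htJ, add_zero]
        · rintro _ ⟨v, hv, rfl⟩
          refine ⟨(∑ j ∈ J, e j) • v, N.smul_mem _ hv, ?_⟩
          change (e t + ∑ j ∈ J, e j) • (∑ j ∈ J, e j) • v = (∑ j ∈ J, e j) • v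
          rw [add_smul, hJt, hJJ, zero_add]
    have hinf : (N.restrictScalars K).map (act K V (e t)) ⊓
        (N.restrictScalars K).map (act K V (∑ j ∈ J, e j)) = ⊥ := by
      rw [eq_bot_iff]
      rintro x ⟨⟨v, hv, hvx⟩, ⟨w, hw, hwx⟩⟩
      change e t • v = x at hvx
      change (∑ j ∈ J, e j) • w = x at hwx
      have h1 : e t • x = x := by rw [← hvx, idem_smul he]
      have h2 : e t • x = 0 := by rw [← hwx, hJt]
      exact (Submodule.mem_bot K).2 (h1.symm.trans h2)
    have h := Submodule.finrank_sup_add_finrank_inf_eq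
      ((N.restrictScalars K).map (act K V (e t)))
      ((N.restrictScalars K).map (act K V (∑ j ∈ J, e j)))
    rw [hinf, finrank_bot, ← hsup] at h
    unfold dv
    omega

/-- Merging the idempotents in `J`. -/
def mg (e : ι → A) (J : Finset ι) (o : Option ι) : A :=
  o.elim (∑ j ∈ J, e j) (fun i => if i ∈ J then 0 else e i)

include he in
theorem mg_complete (J : Finset ι) : CompleteOrthogonalIdempotents (mg e J) := by
  refine ⟨⟨?_, ?_⟩, ?_⟩
  · rintro (_ | i)
    · exact he.toOrthogonalIdempotents.isIdempotentElem_sum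
    · change IsIdempotentElem (if i ∈ J then 0 else e i)
      by_cases h : i ∈ J
      · rw [if_pos h]
        exact IsIdempotentElem.zero
      · rw [if_neg h]
        exact he.idem i
  · have h1 : ∀ i, (∑ j ∈ J, e j) * (if i ∈ J then 0 else e i) = 0 := by
      intro i
      by_cases h : i ∈ J
      · rw [if_pos h, mul_zero]
      · rw [if_neg h, Finset.sum_mul]
        exact Finset.sum_eq_zero fun j hj => he.ortho (by rintro rfl; exact h hj)
    have h2 : ∀ i, (if i ∈ J then 0 else e i) * (∑ j ∈ J, e j) = 0 := by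
      intro i
      by_cases h : i ∈ J
      · rw [if_pos h, zero_mul]
      · rw [if_neg h, Finset.mul_sum]
        exact Finset.sum_eq_zero fun j hj => he.ortho (by rintro rfl; exact h hj)
    rintro (_ | i) (_ | i') hne
    · exact absurd rfl hne
    · exact h1 i'
    · exact h2 i
    · change (if i ∈ J then 0 else e i) * (if i' ∈ J then 0 else e i') = 0
      have hii : i ≠ i' := fun h => hne (by rw [h])
      by_cases h : i ∈ J
      · rw [if_pos h, zero_mul]
      · by_cases h' : i' ∈ J
        · rw [if_pos h', mul_zero]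
        · rw [if_neg h, if_neg h']
          exact he.ortho hii
  · rw [Fintype.sum_option]
    change (∑ j ∈ J, e j) + ∑ i, (if i ∈ J then 0 else e i) = 1
    rw [← he.complete]
    have h1 : (∑ j ∈ J, e j) = ∑ i, (if i ∈ J then e i else 0) := by
      rw [Finset.sum_ite_mem, Finset.univ_inter]
    rw [h1, ← Finset.sum_add_distrib]
    refine Finset.sum_congr rfl fun i _ => ?_
    by_cases h : i ∈ J
    · rw [if_pos h, if_pos h, add_zero]
    · rw [if_neg h, if_neg h, zero_add]

theorem dv_mg_some (J : Finset ι) (N : Submodule A V) (i : ι) :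
    dv K (mg e J) N (some i) = if i ∈ J then 0 else dv K e N i := by
  by_cases h : i ∈ J
  · rw [if_pos h]
    have h1 : (N.restrictScalars K).map (act K V (mg e J (some i))) = ⊥ := by
      rw [eq_bot_iff]
      rintro _ ⟨v, _, rfl⟩
      change (if i ∈ J then (0 : A) else e i) • v ∈ _
      rw [if_pos h, zero_smul]
      exact Submodule.zero_mem _
    unfold dv
    rw [h1, finrank_bot]
  · rw [if_neg h]
    have h1 : mg e J (some i) = e i := if_neg h
    unfold dv
    rw [h1]

include he in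
theorem exists_weight_J (hb : ∀ N N' : Submodule A V, IsCompl N N' → N = ⊥ ∨ N' = ⊥)
    (J : Finset ι) (hthin : ∀ i, i ∉ J → dv K e (⊤ : Submodule A V) i ≤ 1)
    (hj : (∀ v : V, (∀ i, i ∉ J → ∀ a : A, (e i * a) • v = 0) → v = 0) ∨
      (∀ M : Submodule A V, (∀ i, i ∉ J → ∀ v : V, e i • v ∈ M) → M = ⊤))
    (N : Submodule A V) (hN : N ≠ ⊥) (hNt : N ≠ ⊤) :
    ∃ c : ι → ℤ, Valid K V e c ∧ ∑ i, c i * (dv K e N i : ℤ) < 0 := by
  obtain ⟨c, hc, hcN⟩ := exists_weight (K := K) (mg_complete he J) hb none (by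
    rcases hj with h | h
    · refine Or.inl fun v hv => h v fun i hi a => ?_
      have h1 := hv (some i) (by simp) a
      have h2 : mg e J (some i) = e i := if_neg hi
      rwa [h2] at h1
    · refine Or.inr fun M hM => h M fun i hi v => ?_
      have h1 := hM (some i) (by simp) v
      have h2 : mg e J (some i) = e i := if_neg hi
      rwa [h2] at h1) (by
    rintro (_ | i) ho
    · exact absurd rfl ho
    · rw [dv_mg_some]
      by_cases h : i ∈ J
      · rw [if_pos h]
        exact Nat.zero_le 1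
      · rw [if_neg h]
        exact hthin i h) N hN hNt
  have hsum : ∀ M : Submodule A V,
      ∑ i, (if i ∈ J then c none else c (some i)) * (dv K e M i : ℤ) =
        ∑ o, c o * (dv K (mg e J) M o : ℤ) := by
    intro M
    rw [Fintype.sum_option]
    have h1 : dv K (mg e J) M none = ∑ j ∈ J, dv K e M j := finrank_sum he J M
    rw [h1, Nat.cast_sum, Finset.mul_sum]
    have h2 : (∑ j ∈ J, c none * (dv K e M j : ℤ)) =
        ∑ i, (if i ∈ J then c none * (dv K e M i : ℤ) else 0) := by
      rw [Finset.sum_ite_mem, Finset.univ_inter]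
    rw [h2, ← Finset.sum_add_distrib]
    refine Finset.sum_congr rfl fun i _ => ?_
    rw [dv_mg_some]
    by_cases h : i ∈ J
    · simp [h]
    · simp [h]
  refine ⟨fun i => if i ∈ J then c none else c (some i), ⟨?_, fun M => ?_⟩, ?_⟩
  · rw [hsum]
    exact hc.1
  · rw [hsum]
    exact hc.2 M
  · rw [hsum]
    exact hcN

omit [FiniteDimensional K V] [DecidableEq ι] in
theorem exists_common (T : Set (ι → ℕ)) (hfin : T.Finite)
    (hreal : ∀ ν ∈ T, ∃ N : Submodule A V, ∀ i, dv K e N i = ν i)
    (h : ∀ ν ∈ T, ∃ c : ι → ℤ, Valid K V e c ∧ ∑ i, c i * (ν i : ℤ) < 0) :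
    ∃ c : ι → ℤ, Valid K V e c ∧ ∀ ν ∈ T, ∑ i, c i * (ν i : ℤ) < 0 := by
  induction T, hfin using Set.Finite.induction_on with
  | empty =>
    refine ⟨fun _ => 0, ⟨by simp, fun N => by simp⟩, fun ν hν => absurd hν (Set.notMem_empty ν)⟩
  | @insert ν T _ _ ih =>
    obtain ⟨c, hc, hcT⟩ := ih (fun ν' hν' => hreal ν' (Set.mem_insert_of_mem _ hν'))
      (fun ν' hν' => h ν' (Set.mem_insert_of_mem _ hν'))
    obtain ⟨c', hc', hc'ν⟩ := h ν (Set.mem_insert _ _)
    have hadd : ∀ μ : ι → ℤ, ∑ i, (c i + c' i) * μ i = ∑ i, c i * μ i + ∑ i, c' i * μ i := by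
      intro μ
      rw [← Finset.sum_add_distrib]
      exact Finset.sum_congr rfl fun i _ => add_mul _ _ _
    have hle : ∀ (b : ι → ℤ), Valid K V e b → ∀ μ : ι → ℕ,
        (∃ N : Submodule A V, ∀ i, dv K e N i = μ i) → ∑ i, b i * (μ i : ℤ) ≤ 0 := by
      rintro b hb μ ⟨N, hN⟩
      have h1 := hb.2 N
      simp only [hN] at h1
      exact h1
    refine ⟨fun i => c i + c' i, ⟨?_, fun N => ?_⟩, fun μ hμ => ?_⟩
    · rw [hadd, hc.1, hc'.1, add_zero]
    · rw [hadd]
      have h1 := hc.2 N
      have h2 := hc'.2 N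
      omega
    · rw [hadd]
      rcases Set.mem_insert_iff.1 hμ with rfl | hμT
      · have h1 := hle c hc μ (hreal μ (Set.mem_insert _ _))
        omega
      · have h1 := hcT μ hμT
        have h2 := hle c' hc' μ (hreal μ hμ)
        omega

include he in
theorem exists_stable (hb : ∀ N N' : Submodule A V, IsCompl N N' → N = ⊥ ∨ N' = ⊥)
    (J : Finset ι) (hthin : ∀ i, i ∉ J → dv K e (⊤ : Submodule A V) i ≤ 1)
    (hj : (∀ v : V, (∀ i, i ∉ J → ∀ a : A, (e i * a) • v = 0) → v = 0) ∨
      (∀ M : Submodule A V, (∀ i, i ∉ J → ∀ v : V, e i • v ∈ M) → M = ⊤)) :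
    ∃ c : ι → ℤ, ∑ i, c i * (dv K e (⊤ : Submodule A V) i : ℤ) = 0 ∧
      ∀ N : Submodule A V, N ≠ ⊥ → N ≠ ⊤ → ∑ i, c i * (dv K e N i : ℤ) < 0 := by
  let T : Set (ι → ℕ) := {ν | ∃ N : Submodule A V, N ≠ ⊥ ∧ N ≠ ⊤ ∧ ∀ i, dv K e N i = ν i}
  have hfin : T.Finite := by
    refine (Set.Finite.pi (ι := ι) (t := fun _ => Set.Iic (finrank K V))
      fun _ => Set.finite_Iic _).subset ?_
    rintro ν ⟨N, _, _, hν⟩ i _
    rw [← hν i]
    exact Submodule.finrank_le _
  obtain ⟨c, hc, hcT⟩ := exists_common (K := K) (V := V) (e := e) T hfin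
    (fun ν hν => by
      obtain ⟨N, _, _, h⟩ := hν
      exact ⟨N, h⟩)
    (fun ν hν => by
      obtain ⟨N, h1, h2, h⟩ := hν
      obtain ⟨c, hc, hcN⟩ := exists_weight_J he hb J hthin hj N h1 h2
      refine ⟨c, hc, ?_⟩
      simp only [h] at hcN
      exact hcN)
  exact ⟨c, hc.1, fun N h1 h2 => hcT (fun i => dv K e N i) ⟨N, h1, h2, fun _ => rfl⟩⟩

end

end W5h64.SB
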