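/-
Infinite families of stable bricks.
-/
import Pool.Agent.W5h64.SB.Main

namespace W5h64.SB

open Module

universe u

section

variable {K A V : Type u} [Field K] [Ring A] [Algebra K A] [AddCommGroup V] [Module K V]

/-- `W` is a submodule of the `A`-module `V` given by `f`. -/
def IsSub (f : A →ₐ[K] Module.End K V) (W : Submodule K V) : Prop :=
  ∀ (a : A), ∀ v ∈ W, f a v ∈ W

/-- The dimension of `x W`. -/
noncomputable def rk (f : A →ₐ[K] Module.End K V) (x : A) (W : Submodule K V) : ℕ :=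
  finrank K (W.map (f x))

/-- The module given by `f` is stable for the weight `c`. -/
def IsStab (f : A →ₐ[K] Module.End K V) {n : ℕ} (e : Fin n → A) (c : Fin n → ℤ) : Prop :=
  ∑ j, c j * (rk f (e j) ⊤ : ℤ) = 0 ∧
    ∀ W : Submodule K V, IsSub f W → W ≠ ⊥ → W ≠ ⊤ → ∑ j, c j * (rk f (e j) W : ℤ) < 0

/-- Isomorphic modules. -/
def Iso (f g : A →ₐ[K] Module.End K V) : Prop :=
  ∃ t : V ≃ₗ[K] V, ∀ (a : A) (v : V), t (f a v) = g a (t v)

/-- The only endomorphisms of the module are the scalars. -/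
def IsBrick (f : A →ₐ[K] Module.End K V) : Prop :=
  ∀ φ : Module.End K V, (∀ a : A, φ * f a = f a * φ) →
    ∃ c : K, φ = algebraMap K (Module.End K V) c

/-- Either the simple constituents of the socle have multiplicity one in the module, or those of
the top do, or at most one simple module has multiplicity at least two. -/
def FewRepeats (f : A →ₐ[K] Module.End K V) {n : ℕ} (e : Fin n → A) : Prop :=
  (∀ W : Submodule K V, IsSub f W → (∀ j, rk f (e j) ⊤ ≤ 1 → rk f (e j) W = 0) → W = ⊥) ∨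
  (∀ W : Submodule K V, IsSub f W →
    (∀ j, rk f (e j) ⊤ ≤ 1 → rk f (e j) W = rk f (e j) ⊤) → W = ⊤) ∨
  ∃ j, ∀ l, l ≠ j → rk f (e l) ⊤ ≤ 1

theorem exists_isStab [FiniteDimensional K A] [FiniteDimensional K V]
    (f : A →ₐ[K] Module.End K V) {n : ℕ} (e : Fin n → A) (he : CompleteOrthogonalIdempotents e)
    (hbasic : ∀ (j : Fin n) (a : A), ∃ c : K, e j * a * e j - c • e j ∈ Ring.jacobson A)
    (hf : IsBrick f) (hfew : FewRepeats f e) : ∃ c : Fin n → ℤ, IsStab f e c := by
  classical
  let _ : Module A V := Module.compHom V f.toRingHom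
  have hst : IsScalarTower K A V := ⟨fun c a v => by
    change f (c • a) v = c • f a v
    rw [map_smul]
    rfl⟩
  have hact : ∀ a : A, act K V a = f a := fun a => LinearMap.ext fun v => rfl
  have hdv : ∀ (N : Submodule A V) (j : Fin n), dv K e N j = rk f (e j) (N.restrictScalars K) := by
    intro N j
    unfold dv rk
    rw [hact]
  have htopr : ((⊤ : Submodule A V).restrictScalars K) = ⊤ := rfl
  have hsub : ∀ N : Submodule A V, IsSub f (N.restrictScalars K) := fun N a v hv =>
    N.smul_mem a hv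
  have hbrick : Brick K A V := by
    intro φ
    obtain ⟨c, hc⟩ := hf (φ.restrictScalars K) (fun a => LinearMap.ext fun v => map_smul φ a v)
    exact ⟨c, fun v => LinearMap.congr_fun hc v⟩
  have hind : ∀ N N' : Submodule A V, IsCompl N N' → N = ⊥ ∨ N' = ⊥ := fun N N' h =>
    hbrick.indec h
  have hbot : ∀ N : Submodule A V, N.restrictScalars K = ⊥ → N = ⊥ := by
    intro N h
    rw [eq_bot_iff]
    intro x hx
    have h1 : x ∈ N.restrictScalars K := hx
    rw [h] at h1
    exact (Submodule.mem_bot A).2 ((Submodule.mem_bot K).1 h1)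
  have htop : ∀ N : Submodule A V, N.restrictScalars K = ⊤ → N = ⊤ := by
    intro N h
    rw [eq_top_iff]
    intro x _
    have h1 : x ∈ N.restrictScalars K := by
      rw [h]
      exact Submodule.mem_top
    exact h1
  -- the conclusion from the stability of the `A`-module
  have hconc : (∃ c : Fin n → ℤ, ∑ i, c i * (dv K e (⊤ : Submodule A V) i : ℤ) = 0 ∧
      ∀ N : Submodule A V, N ≠ ⊥ → N ≠ ⊤ → ∑ i, c i * (dv K e N i : ℤ) < 0) →
      ∃ c : Fin n → ℤ, IsStab f e c := by
    rintro ⟨c, hc, hcN⟩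
    refine ⟨c, ?_, fun W hW h1 h2 => ?_⟩
    · simp only [hdv, htopr] at hc
      exact hc
    · let N : Submodule A V := { W with smul_mem' := fun a v hv => hW a v hv }
      have hN : N.restrictScalars K = W := by
        ext x
        rfl
      have h3 := hcN N (fun h => h1 (by rw [← hN, h]; rfl)) (fun h => h2 (by rw [← hN, h]; rfl))
      simp only [hdv, hN] at h3
      exact h3
  have key : ∀ J : Finset (Fin n), (∀ i, i ∉ J → dv K e (⊤ : Submodule A V) i ≤ 1) →
      ((∀ v : V, (∀ i, i ∉ J → ∀ a : A, (e i * a) • v = 0) → v = 0) ∨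
        (∀ M : Submodule A V, (∀ i, i ∉ J → ∀ v : V, e i • v ∈ M) → M = ⊤)) →
      ∃ c : Fin n → ℤ, IsStab f e c := fun J h1 h2 =>
    hconc (exists_stable he hind J h1 h2)
  let J : Finset (Fin n) := Finset.univ.filter fun i => 2 ≤ rk f (e i) ⊤
  have hJ : ∀ i, i ∉ J ↔ rk f (e i) ⊤ ≤ 1 := by
    intro i
    rw [Finset.mem_filter, not_and, not_le]
    constructor
    · intro h
      have := h (Finset.mem_univ i)
      omega
    · intro h _
      omega
  have hJthin : ∀ i, i ∉ J → dv K e (⊤ : Submodule A V) i ≤ 1 := by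
    intro i hi
    rw [hdv, htopr]
    exact (hJ i).1 hi
  rcases hfew with hsoc | htp | ⟨j, hj⟩
  · refine key J hJthin (Or.inl fun v hv => ?_)
    let Z : Submodule A V :=
      { carrier := {v | ∀ i, i ∉ J → ∀ a : A, (e i * a) • v = 0}
        add_mem' := fun {v w} hv hw i hi a => by rw [smul_add, hv i hi a, hw i hi a, add_zero]
        zero_mem' := fun i _ a => smul_zero _
        smul_mem' := fun b v hv i hi a => by
          rw [← mul_smul, mul_assoc]
          exact hv i hi _ }
    have h1 : Z.restrictScalars K = ⊥ := by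
      refine hsoc _ (hsub Z) fun i hi => ?_
      have h2 : (Z.restrictScalars K).map (f (e i)) = ⊥ := by
        rw [eq_bot_iff]
        rintro _ ⟨w, hw, rfl⟩
        have h3 := hw i ((hJ i).2 hi) 1
        rw [mul_one] at h3
        exact (Submodule.mem_bot K).2 h3
      unfold rk
      rw [h2, finrank_bot]
    have h4 : v ∈ Z := hv
    rw [hbot Z h1] at h4
    exact (Submodule.mem_bot A).1 h4
  · refine key J hJthin (Or.inr fun M hM => htop M (htp _ (hsub M) fun i hi => ?_))
    have h2 : (M.restrictScalars K).map (f (e i)) = (⊤ : Submodule K V).map (f (e i)) := by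
      apply le_antisymm (Submodule.map_mono le_top)
      rintro _ ⟨w, _, rfl⟩
      refine ⟨f (e i) w, hM i ((hJ i).2 hi) w, ?_⟩
      exact idem_smul he i w
    unfold rk
    rw [h2]
  · rcases socle_or_top he hbrick j (hbasic j) with h | h | h
    · refine key {j} (fun i hi => ?_) (Or.inl fun v hv => h v fun i hi a =>
        hv i (by rwa [Finset.mem_singleton]) a)
      rw [hdv, htopr]
      exact hj i (by rwa [Finset.mem_singleton] at hi)
    · refine key {j} (fun i hi => ?_) (Or.inr fun M hM => h M fun i hi v =>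
        hM i (by rwa [Finset.mem_singleton]) v)
      rw [hdv, htopr]
      exact hj i (by rwa [Finset.mem_singleton] at hi)
    · refine hconc ⟨fun _ => 0, by simp, fun N h1 h2 => ?_⟩
      rcases h N with h3 | h3
      · exact absurd h3 h1
      · exact absurd h3 h2

/-- Infinitely many modules that are stable for some weight: infinitely many of them are stable
for a common weight. -/
theorem exists_common_weight {n : ℕ} (e : Fin n → A) (d : ℕ)
    (f : ℕ → (A →ₐ[K] Module.End K (Fin d → K))) (hf : ∀ i, ∃ c : Fin n → ℤ, IsStab (f i) e c) :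
    ∃ (c : Fin n → ℤ) (s : ℕ → ℕ), StrictMono s ∧ ∀ i, IsStab (f (s i)) e c := by
  classical
  have hle : ∀ (i : ℕ) (j : Fin n) (W : Submodule K (Fin d → K)), rk (f i) (e j) W < d + 1 := by
    intro i j W
    have h1 : rk (f i) (e j) W ≤ finrank K (Fin d → K) := Submodule.finrank_le _
    rw [finrank_fintype_fun_eq_card, Fintype.card_fin] at h1
    omega
  let τ : ℕ → (Fin n → Fin (d + 1)) × Set (Fin n → Fin (d + 1)) := fun i =>
    (fun j => ⟨rk (f i) (e j) ⊤, hle i j ⊤⟩,
      {ν | ∃ W : Submodule K (Fin d → K), IsSub (f i) W ∧ W ≠ ⊥ ∧ W ≠ ⊤ ∧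
        ∀ j, rk (f i) (e j) W = (ν j : ℕ)})
  obtain ⟨y, hy⟩ := Finite.exists_infinite_fiber τ
  have hinf : (τ ⁻¹' {y}).Infinite := Set.infinite_coe_iff.1 hy
  obtain ⟨i₀, hi₀⟩ := hinf.nonempty
  obtain ⟨c, hc, hcW⟩ := hf i₀
  refine ⟨c, Nat.nth (· ∈ τ ⁻¹' {y}), Nat.nth_strictMono hinf, fun i => ?_⟩
  have hmem : τ (Nat.nth (· ∈ τ ⁻¹' {y}) i) = τ i₀ := by
    have h1 : Nat.nth (· ∈ τ ⁻¹' {y}) i ∈ τ ⁻¹' {y} := Nat.nth_mem_of_infinite hinf i
    have h2 : τ (Nat.nth (· ∈ τ ⁻¹' {y}) i) = y := h1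
    have h3 : τ i₀ = y := hi₀
    rw [h2, h3]
  generalize Nat.nth (· ∈ τ ⁻¹' {y}) i = m at hmem
  have h1 : ∀ j, rk (f m) (e j) ⊤ = rk (f i₀) (e j) ⊤ := by
    intro j
    have h2 := congrFun (congrArg Prod.fst hmem) j
    exact congrArg Fin.val h2
  refine ⟨?_, fun W hW hW1 hW2 => ?_⟩
  · simp only [h1]
    exact hc
  · have h2 : (fun j => (⟨rk (f m) (e j) W, hle m j W⟩ : Fin (d + 1))) ∈ (τ m).2 :=
      ⟨W, hW, hW1, hW2, fun j => rfl⟩
    rw [hmem] at h2
    obtain ⟨W', hW', hW1', hW2', hν⟩ := h2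
    have h3 := hcW W' hW' hW1' hW2'
    simp only [hν] at h3
    exact h3

end

end W5h64.SB
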