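/-
Stability of modules with two groups of repeated composition factors.
-/
import Pool.Agent.W5h64.SB.Main

namespace W5h64.SB

open Module

section

variable {K A V : Type*} [Field K] [Ring A] [Algebra K A] [AddCommGroup V] [Module K V]
  [Module A V] [IsScalarTower K A V] [FiniteDimensional K V]
  {ι : Type*} [Fintype ι] [DecidableEq ι]

variable {e : ι → A} (he : CompleteOrthogonalIdempotents e)

include he in
theorem exists_weight_two (hb : ∀ N N' : Submodule A V, IsCompl N N' → N = ⊥ ∨ N' = ⊥)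
    (p q : ι) (hpq : p ≠ q)
    (hsoc : ∀ v : V, (∀ i, i ≠ p → ∀ a : A, (e i * a) • v = 0) → v = 0)
    (htop : ∀ M : Submodule A V, (∀ i, i ≠ q → ∀ v : V, e i • v ∈ M) → M = ⊤)
    (hqp : ∀ (a : A) (v : V), e q • a • e p • v ∈ Submodule.span K
      {z : V | ∃ i, (i ≠ p ∧ i ≠ q) ∧ ∃ x y : A, z = e q • x • e i • y • e p • v})
    (hthin : ∀ i, (i ≠ p ∧ i ≠ q) → dv K e (⊤ : Submodule A V) i ≤ 1)
    (N : Submodule A V) (hN : N ≠ ⊥) (hNt : N ≠ ⊤) :
    ∃ c : ι → ℤ, Valid K V e c ∧ ∑ i, c i * (dv K e N i : ℤ) < 0 := by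
  classical
  have hle1 : ∀ (M : Submodule A V) (i : ι), (i ≠ p ∧ i ≠ q) → dv K e M i ≤ 1 := fun M i hi =>
    (dv_mono le_top i).trans (hthin i hi)
  -- first case: a path from outside `N` into `N`
  by_cases hpath : ∃ i i' : ι, (i ≠ p ∧ i ≠ q) ∧ (i' ≠ p ∧ i' ≠ q) ∧ dv K e N i = 0 ∧
      dv K e N i' ≠ 0 ∧ ∃ (a : A) (v : V), e i' • a • e i • v ≠ 0
  · obtain ⟨i, i', hi, hi', h0, h1, a, v, hav⟩ := hpath
    have himp : ∀ M : Submodule A V, dv K e M i ≤ dv K e M i' := by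
      intro M
      by_cases hMi : dv K e M i = 0
      · omega
      · have h2 := smul_mem_of_dv (hthin i hi) hMi v
        have h3 := dv_ne_zero (K := K) (M.smul_mem a h2) hav
        have h4 := hle1 M i hi
        omega
    have hsum : ∀ ν : ι → ℤ,
        ∑ l, wt i 1 {i'} ∅ (fun _ => -1) (fun _ => 0) l * ν l = ν i - ν i' := by
      intro ν
      rw [sum_wt i 1 {i'} ∅ (fun _ => -1) (fun _ => 0) ν, Finset.sum_singleton,
        Finset.sum_empty]
      ring
    have htop' : ∀ l, (l ≠ p ∧ l ≠ q) → (∃ w : V, e l • w ≠ 0) →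
        dv K e (⊤ : Submodule A V) l = 1 := by
      rintro l hl ⟨w, hw⟩
      have h2 := dv_ne_zero (K := K) (Submodule.mem_top (x := w) (R := A)) hw
      have h3 := hthin l hl
      omega
    refine ⟨wt i 1 {i'} ∅ (fun _ => -1) (fun _ => 0), ⟨?_, fun M => ?_⟩, ?_⟩
    · rw [hsum, htop' i hi ⟨v, fun h => hav (by rw [h, smul_zero, smul_zero])⟩,
        htop' i' hi' ⟨_, hav⟩]
      norm_num
    · rw [hsum]
      have := himp M
      omega
    · rw [hsum]
      omega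
  have hpath' : ∀ i i' : ι, (i ≠ p ∧ i ≠ q) → (i' ≠ p ∧ i' ≠ q) → dv K e N i = 0 →
      dv K e N i' ≠ 0 → ∀ (a : A) (v : V), e i' • a • e i • v = 0 := by
    intro i i' hi hi' h0 h1 a v
    by_contra h
    exact hpath ⟨i, i', hi, hi', h0, h1, a, v, h⟩
  let T₁ : Finset ι := Finset.univ.filter fun i => (i ≠ p ∧ i ≠ q) ∧ dv K e N i ≠ 0
  let T₂ : Finset ι := Finset.univ.filter fun i => (i ≠ p ∧ i ≠ q) ∧ dv K e N i = 0 ∧
    dv K e (⊤ : Submodule A V) i ≠ 0
  have hT₁ : ∀ i, i ∈ T₁ ↔ (i ≠ p ∧ i ≠ q) ∧ dv K e N i ≠ 0 := fun i => by simp [T₁]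
  have hT₂ : ∀ i, i ∈ T₂ ↔ (i ≠ p ∧ i ≠ q) ∧ dv K e N i = 0 ∧
      dv K e (⊤ : Submodule A V) i ≠ 0 := fun i => by simp [T₂]
  have hT : ∀ i, (i ≠ p ∧ i ≠ q) → i ∈ T₁ ∨ i ∈ T₂ ∨ ∀ v : V, e i • v = 0 := fun i hi => by
    rw [hT₁, hT₂]
    by_cases h : dv K e N i = 0
    · by_cases h' : dv K e (⊤ : Submodule A V) i = 0
      · exact Or.inr (Or.inr fun v => smul_eq_zero_of_dv h' Submodule.mem_top)
      · exact Or.inr (Or.inl ⟨hi, h, h'⟩)
    · exact Or.inl ⟨hi, h⟩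
  have ht₁ : ∀ i ∈ T₁, dv K e (⊤ : Submodule A V) i = 1 := by
    intro i hi
    have h1 := (hT₁ i).1 hi
    have h2 := dv_mono (K := K) (e := e) (le_top (a := N)) i
    have h3 := hthin i h1.1
    omega
  have ht₂ : ∀ i ∈ T₂, dv K e (⊤ : Submodule A V) i = 1 := by
    intro i hi
    have h1 := (hT₂ i).1 hi
    have h3 := hthin i h1.1
    omega
  have hn₁ : ∀ i ∈ T₁, dv K e N i = 1 := by
    intro i hi
    have h1 := (hT₁ i).1 hi
    have h3 := hle1 N i h1.1
    omega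
  have hn₂ : ∀ i ∈ T₂, dv K e N i = 0 := fun i hi => ((hT₂ i).1 hi).2.1
  let Wp : Submodule K V := LinearMap.range (act K V (e p))
  let Wq : Submodule K V := LinearMap.range (act K V (e q))
  have hWp : ∀ v ∈ Wp, e p • v = v := by
    rintro _ ⟨v, rfl⟩
    exact idem_smul he p v
  have hWq : ∀ v ∈ Wq, e q • v = v := by
    rintro _ ⟨v, rfl⟩
    exact idem_smul he q v
  have hdvp : ∀ M : Submodule A V, dv K e M p = finrank K ↥((M.restrictScalars K) ⊓ Wp) := by
    intro M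
    have h1 : (M.restrictScalars K).map (act K V (e p)) = (M.restrictScalars K) ⊓ Wp := by
      ext v
      constructor
      · rintro ⟨w, hw, rfl⟩
        exact ⟨M.smul_mem _ hw, w, rfl⟩
      · rintro ⟨hv, hvW⟩
        exact ⟨v, hv, hWp v hvW⟩
    rw [← h1]
    rfl
  have hdvq : ∀ M : Submodule A V, dv K e M q = finrank K ↥((M.restrictScalars K) ⊓ Wq) := by
    intro M
    have h1 : (M.restrictScalars K).map (act K V (e q)) = (M.restrictScalars K) ⊓ Wq := by
      ext v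
      constructor
      · rintro ⟨w, hw, rfl⟩
        exact ⟨M.smul_mem _ hw, w, rfl⟩
      · rintro ⟨hv, hvW⟩
        exact ⟨v, hv, hWq v hvW⟩
    rw [← h1]
    rfl
  have hdvpt : dv K e (⊤ : Submodule A V) p = finrank K Wp := by
    rw [hdvp]
    have : ((⊤ : Submodule A V).restrictScalars K) ⊓ Wp = Wp := by
      rw [inf_eq_right]
      exact fun x _ => Submodule.mem_top
    rw [this]
  have hdvqt : dv K e (⊤ : Submodule A V) q = finrank K Wq := by
    rw [hdvq]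
    have : ((⊤ : Submodule A V).restrictScalars K) ⊓ Wq = Wq := by
      rw [inf_eq_right]
      exact fun x _ => Submodule.mem_top
    rw [this]
  have hfin : ∀ N' : Submodule A V, N ⊓ N' = ⊥ → N ⊔ N' = ⊤ → False := by
    intro N' h1 h2
    rcases hb _ _ (IsCompl.of_eq h1 h2) with h | h
    · exact hN h
    · rw [h, sup_bot_eq] at h2
      exact hNt h2
  have hsumN : ∀ b : ι → ℕ, ∑ i ∈ T₁, (b i : ℤ) * (dv K e N i : ℤ) = ∑ i ∈ T₁, (b i : ℤ) :=
    fun b => Finset.sum_congr rfl fun i hi => by rw [hn₁ i hi, Nat.cast_one, mul_one]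
  have hsumN' : ∀ b : ι → ℕ, ∑ i ∈ T₂, (b i : ℤ) * (dv K e N i : ℤ) = 0 :=
    fun b => Finset.sum_eq_zero fun i hi => by rw [hn₂ i hi, Nat.cast_zero, mul_zero]
  have hsumT : ∀ b : ι → ℕ, ∑ i ∈ T₁, (b i : ℤ) * (dv K e (⊤ : Submodule A V) i : ℤ) =
      ∑ i ∈ T₁, (b i : ℤ) :=
    fun b => Finset.sum_congr rfl fun i hi => by rw [ht₁ i hi, Nat.cast_one, mul_one]
  have hsumT' : ∀ b : ι → ℕ, ∑ i ∈ T₂, (b i : ℤ) * (dv K e (⊤ : Submodule A V) i : ℤ) =
      ∑ i ∈ T₂, (b i : ℤ) :=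
    fun b => Finset.sum_congr rfl fun i hi => by rw [ht₂ i hi, Nat.cast_one, mul_one]
  have hneg : ∀ (T : Finset ι) (b : ι → ℕ) (ν : ι → ℤ),
      ∑ i ∈ T, (-(b i : ℤ)) * ν i = -∑ i ∈ T, (b i : ℤ) * ν i := by
    intro T b ν
    rw [← Finset.sum_neg_distrib]
    exact Finset.sum_congr rfl fun i _ => neg_mul _ _
  -- a vector at `p` not seen by the other idempotents vanishes
  have hzero : ∀ v : V, e p • v = v → (∀ i, (i ≠ p ∧ i ≠ q) → ∀ a : A, (e i * a) • v = 0) →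
      v = 0 := by
    intro v hv h
    refine hsoc v fun i hi a => ?_
    by_cases hiq : i = q
    · subst hiq
      rw [mul_smul]
      have h1 := hqp a v
      rw [hv] at h1
      have h2 : Submodule.span K {z : V | ∃ l, (l ≠ p ∧ l ≠ i) ∧
          ∃ x y : A, z = e i • x • e l • y • v} ≤ ⊥ := by
        refine Submodule.span_le.2 ?_
        rintro _ ⟨l, hl, x, y, rfl⟩
        have h3 := h l hl y
        rw [mul_smul] at h3
        rw [h3, smul_zero, smul_zero]
        exact Submodule.zero_mem _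
      exact (Submodule.mem_bot K).1 (h2 h1)
    · exact h i ⟨hi, hiq⟩ a
  -- the weights at `p`
  let P : ι → Submodule K V := fun i => (PP V (e i)).restrictScalars K
  obtain ⟨b₁, hb₁, hX₁⟩ := exists_weights_inf P Wp T₁
  obtain ⟨b₂, hb₂, hX₂⟩ := exists_weights_inf P (Wp ⊓ T₁.inf P) T₂
  have hPnot : ∀ (M : Submodule A V) (i : ι),
      ¬ (M.restrictScalars K) ⊓ Wp ≤ P i → 1 ≤ dv K e M i := by
    intro M i h
    by_contra h0
    apply h
    rintro x ⟨hxM, _⟩ a
    rw [mul_smul]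
    exact smul_eq_zero_of_dv (K := K) (by omega) (M.smul_mem a hxM)
  have hZ : Wp ⊓ T₁.inf P ⊓ T₂.inf P = ⊥ := by
    rw [eq_bot_iff]
    rintro x ⟨⟨hxW, hx1⟩, hx2⟩
    refine (Submodule.mem_bot K).2 (hzero x (hWp x hxW) fun i hi a => ?_)
    rcases hT i hi with h | h | h
    · exact (Submodule.mem_finsetInf.1 hx1 i h) a
    · exact (Submodule.mem_finsetInf.1 hx2 i h) a
    · rw [mul_smul]
      exact h _
  rw [hZ, finrank_bot, add_zero] at hb₂
  have hvalid : ∀ M : Submodule A V, dv K e M p ≤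
      ∑ i ∈ T₁, b₁ i * dv K e M i + ∑ i ∈ T₂, b₂ i * dv K e M i := by
    intro M
    have h1 := hX₁ ((M.restrictScalars K) ⊓ Wp) (dv K e M) inf_le_right
      (fun i _ h => hPnot M i h)
    have h2 := hX₂ ((M.restrictScalars K) ⊓ Wp ⊓ T₁.inf P) (dv K e M)
      (inf_le_inf_right _ inf_le_right)
      (fun i _ h => hPnot M i fun h' => h (inf_le_left.trans h'))
    have h3 : (M.restrictScalars K) ⊓ Wp ⊓ T₁.inf P ⊓ T₂.inf P = ⊥ := by
      rw [eq_bot_iff, ← hZ]
      exact inf_le_inf_right _ (inf_le_inf_right _ inf_le_right)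
    rw [h3, finrank_bot] at h2
    rw [hdvp]
    omega
  by_cases hlt : dv K e N p + finrank K ↥(Wp ⊓ T₁.inf P) < finrank K Wp
  · refine ⟨wt p 1 T₁ T₂ (fun i => -(b₁ i : ℤ)) (fun i => -(b₂ i : ℤ)),
      ⟨?_, fun M => ?_⟩, ?_⟩
    · rw [sum_wt, hneg, hneg, hsumT, hsumT', hdvpt]
      zify at hb₁ hb₂
      omega
    · rw [sum_wt, hneg, hneg]
      have h1 := hvalid M
      zify at h1
      omega
    · rw [sum_wt, hneg, hneg, hsumN, hsumN']
      zify at hb₁ hlt
      omega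
  -- the weights at `q`
  let U : ι → Submodule K V := fun i => (UU V (e i)).restrictScalars K ⊓ Wq
  obtain ⟨d₂, hd₂, hY₂⟩ := exists_weights_sup U ⊥ T₂
  obtain ⟨d₁, hd₁, hY₁⟩ := exists_weights_sup U (⊥ ⊔ T₂.sup U) T₁
  let H : Submodule K V → Submodule A V := fun G =>
    { carrier := {v | ∀ a : A, (e q * a) • v ∈ G}
      add_mem' := fun {v w} hv hw a => by
        rw [smul_add]
        exact G.add_mem (hv a) (hw a)
      zero_mem' := fun a => by
        rw [smul_zero]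
        exact G.zero_mem
      smul_mem' := fun b v hv a => by
        rw [← mul_smul, mul_assoc]
        exact hv _ }
  have hUH : ∀ (G : Submodule K V) (i : ι), U i ≤ G → UU V (e i) ≤ H G := by
    intro G i hG
    refine UU_le fun w a => hG ⟨?_, ?_⟩
    · exact (UU V (e i)).smul_mem _ (smul_mem_UU _ _)
    · rw [mul_smul]
      exact ⟨_, rfl⟩
  have hHq : ∀ (G : Submodule K V) (v : V), v ∈ H G → e q • v ∈ G := by
    intro G v hv
    have h1 := hv 1
    rwa [mul_one] at h1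
  -- vectors at `p` whose images at the thin indices lie in `H G` lie in `H G`
  have hpH : ∀ (G : Submodule K V) (v : V), e p • v = v →
      (∀ i, (i ≠ p ∧ i ≠ q) → ∀ y : A, e i • y • v ∈ H G) → v ∈ H G := by
    intro G v hv h a
    rw [mul_smul]
    have h1 := hqp a v
    rw [hv] at h1
    have h2 : Submodule.span K {z : V | ∃ l, (l ≠ p ∧ l ≠ q) ∧
        ∃ x y : A, z = e q • x • e l • y • v} ≤ G := by
      refine Submodule.span_le.2 ?_
      rintro _ ⟨l, hl, x, y, rfl⟩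
      have h3 := h l hl y x
      rwa [mul_smul] at h3
    exact h2 h1
  have hGW : (⊥ ⊔ T₂.sup U) ⊔ T₁.sup U = Wq := by
    apply le_antisymm
    · refine sup_le (sup_le bot_le (Finset.sup_le fun i _ => inf_le_right))
        (Finset.sup_le fun i _ => inf_le_right)
    · intro w hw
      have h0 : ∀ i, (i ≠ p ∧ i ≠ q) → ∀ v : V,
          e i • v ∈ H ((⊥ ⊔ T₂.sup U) ⊔ T₁.sup U) := by
        intro i hi v
        rcases hT i hi with h | h | h
        · exact hUH _ i ((Finset.le_sup h).trans le_sup_right) (smul_mem_UU _ _)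
        · exact hUH _ i ((Finset.le_sup h).trans (le_sup_right.trans le_sup_left))
            (smul_mem_UU _ _)
        · rw [h]
          exact Submodule.zero_mem _
      have h1 : H ((⊥ ⊔ T₂.sup U) ⊔ T₁.sup U) = ⊤ := by
        refine htop _ fun i hi v => ?_
        by_cases hip : i = p
        · subst hip
          exact hpH _ _ (idem_smul he i v) fun l hl y => h0 l hl _
        · exact h0 i ⟨hip, hi⟩ v
      have h2 := hHq _ w (by rw [h1]; exact Submodule.mem_top)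
      rwa [hWq w hw] at h2
  rw [hGW] at hd₁
  rw [finrank_bot, zero_add] at hd₂
  have hvalid' : ∀ M : Submodule A V, ∑ i ∈ T₁, d₁ i * dv K e M i +
      ∑ i ∈ T₂, d₂ i * dv K e M i ≤ dv K e M q := by
    intro M
    have hUM : ∀ i, (i ≠ p ∧ i ≠ q) → dv K e M i ≠ 0 → U i ≤ (M.restrictScalars K) ⊓ Wq := by
      intro i hi h
      refine inf_le_inf_right _ ?_
      exact UU_le (N := M) fun w => smul_mem_of_dv (hthin i hi) h w
    have h1 := hY₂ ((M.restrictScalars K) ⊓ Wq) (dv K e M)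
      (fun i hi => hle1 M i ((hT₂ i).1 hi).1) (fun i hi => hUM i ((hT₂ i).1 hi).1)
    have h2 := hY₁ ((M.restrictScalars K) ⊓ Wq) (dv K e M)
      (fun i hi => hle1 M i ((hT₁ i).1 hi).1) (fun i hi => hUM i ((hT₁ i).1 hi).1)
    have h3 : finrank K ↥((M.restrictScalars K) ⊓ Wq ⊓ ((⊥ ⊔ T₂.sup U) ⊔ T₁.sup U)) ≤
        finrank K ↥((M.restrictScalars K) ⊓ Wq) := Submodule.finrank_mono inf_le_left
    rw [hdvq]
    omega
  by_cases hlt' : finrank K Wq < finrank K ↥(⊥ ⊔ T₂.sup U) + dv K e N q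
  · refine ⟨wt q (-1) T₁ T₂ (fun i => (d₁ i : ℤ)) (fun i => (d₂ i : ℤ)),
      ⟨?_, fun M => ?_⟩, ?_⟩
    · rw [sum_wt, hsumT, hsumT', hdvqt]
      zify at hd₁ hd₂
      omega
    · rw [sum_wt]
      have h1 := hvalid' M
      zify at h1
      omega
    · rw [sum_wt, hsumN, hsumN']
      zify at hd₁ hlt'
      omega
  -- the complement
  exfalso
  let N' : Submodule A V := (T₁.inf fun i => PP V (e i)) ⊓ H (⊥ ⊔ T₂.sup U)
  have hN'1 : ∀ v ∈ N', ∀ i ∈ T₁, ∀ a : A, (e i * a) • v = 0 := fun v hv =>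
    Submodule.mem_finsetInf.1 hv.1
  have hN'2 : ∀ v, (∀ i ∈ T₁, ∀ a : A, (e i * a) • v = 0) → v ∈ H (⊥ ⊔ T₂.sup U) → v ∈ N' :=
    fun v h1 h2 => ⟨Submodule.mem_finsetInf.2 h1, h2⟩
  -- thin components outside `N` lie in `N'`
  have hthinN' : ∀ i ∈ T₂, ∀ v : V, e i • v ∈ N' := by
    intro i hi v
    refine hN'2 _ (fun i' hi' a => ?_) ?_
    · rw [mul_smul]
      exact hpath' i i' ((hT₂ i).1 hi).1 ((hT₁ i').1 hi').1 (hn₂ i hi) ((hT₁ i').1 hi').2 a v
    · exact hUH _ i ((Finset.le_sup hi).trans le_sup_right) (smul_mem_UU _ _)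
  -- vectors at `p` killed by `T₁`
  have hPN' : ∀ w ∈ Wp ⊓ T₁.inf P, w ∈ N' := by
    rintro w ⟨hw, hw1⟩
    have hk : ∀ i ∈ T₁, ∀ a : A, (e i * a) • w = 0 := fun i hi a =>
      (Submodule.mem_finsetInf.1 hw1 i hi) a
    refine hN'2 w hk (hpH _ w (hWp w hw) fun i hi y => ?_)
    rcases hT i hi with h | h | h
    · have h1 := hk i h y
      rw [mul_smul] at h1
      rw [h1]
      exact Submodule.zero_mem _
    · exact (hthinN' i h (y • w)).2
    · rw [h]
      exact Submodule.zero_mem _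
  have hbotp : ∀ w, e p • w = w → w ∈ N → w ∈ N' → w = 0 := by
    intro w hw h1 h2
    refine hzero w hw fun i hi a => ?_
    rcases hT i hi with h | h | h
    · exact hN'1 w h2 i h a
    · rw [mul_smul]
      exact smul_eq_zero_of_dv (K := K) (hn₂ i h) (N.smul_mem a h1)
    · rw [mul_smul]
      exact h _
  have hXY : (N.restrictScalars K) ⊓ Wp ⊔ (Wp ⊓ T₁.inf P) = Wp := by
    refine Submodule.eq_of_le_of_finrank_le (sup_le inf_le_right inf_le_left) ?_
    have h1 := Submodule.finrank_sup_add_finrank_inf_eq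
      ((N.restrictScalars K) ⊓ Wp) (Wp ⊓ T₁.inf P)
    have h2 : ((N.restrictScalars K) ⊓ Wp) ⊓ (Wp ⊓ T₁.inf P) = ⊥ := by
      rw [eq_bot_iff]
      rintro x ⟨⟨hx1, hx3⟩, hx2⟩
      exact (Submodule.mem_bot K).2 (hbotp x (hWp x hx3) hx1 (hPN' x hx2))
    rw [h2, finrank_bot, ← hdvp] at h1
    omega
  have htopN : N ⊔ N' = ⊤ := by
    refine htop _ fun i hi v => ?_
    by_cases hip : i = p
    · subst hip
      have h1 : e i • v ∈ Wp := ⟨v, rfl⟩
      rw [← hXY] at h1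
      obtain ⟨x, hx, y, hy, hxy⟩ := Submodule.mem_sup.1 h1
      rw [← hxy]
      exact Submodule.add_mem_sup hx.1 (hPN' y hy)
    · rcases hT i ⟨hip, hi⟩ with h | h | h
      · exact Submodule.mem_sup_left
          (smul_mem_of_dv (hthin i ⟨hip, hi⟩) ((hT₁ i).1 h).2 v)
      · exact Submodule.mem_sup_right (hthinN' i h v)
      · rw [h]
        exact Submodule.zero_mem _
  have hsupW : Wq ≤ (N.restrictScalars K) ⊓ Wq ⊔ (⊥ ⊔ T₂.sup U) := by
    intro w hw
    have h1 : w ∈ N ⊔ N' := by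
      rw [htopN]
      exact Submodule.mem_top
    obtain ⟨x, hx, y, hy, hxy⟩ := Submodule.mem_sup.1 h1
    rw [← hWq w hw, ← hxy, smul_add]
    exact Submodule.add_mem_sup ⟨N.smul_mem _ hx, x, rfl⟩ (hHq _ y hy.2)
  have hinf : (N.restrictScalars K) ⊓ Wq ⊓ (⊥ ⊔ T₂.sup U) = ⊥ := by
    have h1 := Submodule.finrank_sup_add_finrank_inf_eq
      ((N.restrictScalars K) ⊓ Wq) (⊥ ⊔ T₂.sup U)
    have h2 := Submodule.finrank_mono hsupW
    rw [← hdvq] at h1
    exact Submodule.finrank_eq_zero.1 (by omega)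
  refine hfin N' ?_ htopN
  rw [eq_bot_iff]
  rintro v ⟨hv, hv'⟩
  refine (Submodule.mem_bot A).2 ?_
  rw [← sum_smul_eq he v]
  refine Finset.sum_eq_zero fun i _ => ?_
  by_cases hip : i = p
  · subst hip
    exact hbotp _ (idem_smul he i v) (N.smul_mem _ hv) (N'.smul_mem _ hv')
  · by_cases hiq : i = q
    · subst hiq
      have h1 : e i • v ∈ (N.restrictScalars K) ⊓ Wq ⊓ (⊥ ⊔ T₂.sup U) :=
        ⟨⟨N.smul_mem _ hv, v, rfl⟩, hHq _ v hv'.2⟩
      rw [hinf] at h1
      exact (Submodule.mem_bot K).1 h1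
    · rcases hT i ⟨hip, hiq⟩ with h | h | h
      · have h2 := hN'1 v hv' i h 1
        rwa [mul_one] at h2
      · exact smul_eq_zero_of_dv (K := K) (hn₂ i h) hv
      · exact h v

end

end W5h64.SB
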