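/-
Stability of modules whose repeated composition factors form two groups.
-/
import Pool.Agent.W5h64.SB.Two
import Pool.Agent.W5h64.SB.Final

namespace W5h64.SB

open Module

section

variable {K A V : Type*} [Field K] [Ring A] [Algebra K A] [AddCommGroup V] [Module K V]
  [Module A V] [IsScalarTower K A V] [FiniteDimensional K V]
  {ι : Type*} [Fintype ι] [DecidableEq ι]

variable {e : ι → A} (he : CompleteOrthogonalIdempotents e)

include he in
theorem unmerge (J : Finset ι) (c' : Option ι → ℤ) : ∃ c : ι → ℤ, ∀ M : Submodule A V,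
    ∑ i, c i * (dv K e M i : ℤ) = ∑ o, c' o * (dv K (mg e J) M o : ℤ) := by
  refine ⟨fun i => if i ∈ J then c' none else c' (some i), fun M => ?_⟩
  rw [Fintype.sum_option]
  have h1 : dv K (mg e J) M none = ∑ j ∈ J, dv K e M j := finrank_sum he J M
  rw [h1, Nat.cast_sum, Finset.mul_sum]
  have h2 : (∑ j ∈ J, c' none * (dv K e M j : ℤ)) =
      ∑ i, (if i ∈ J then c' none * (dv K e M i : ℤ) else 0) := by
    rw [Finset.sum_ite_mem, Finset.univ_inter]
  rw [h2, ← Finset.sum_add_distrib]
  refine Finset.sum_congr rfl fun i _ => ?_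
  rw [dv_mg_some]
  by_cases h : i ∈ J
  · simp [h]
  · simp [h]

/-- The additive group generated by the products `x e_l y`, `l ∈ T`. -/
def thru (e : ι → A) (T : ι → Prop) : AddSubgroup A :=
  AddSubgroup.closure {z | ∃ l, T l ∧ ∃ x y : A, z = x * e l * y}

include he in
theorem exists_weight_two_J (hb : ∀ N N' : Submodule A V, IsCompl N N' → N = ⊥ ∨ N' = ⊥)
    (Ja Jb : Finset ι) (hd : ∀ i, i ∈ Ja → i ∉ Jb)
    (hsoc : ∀ v : V, (∀ i, i ∉ Ja → ∀ a : A, (e i * a) • v = 0) → v = 0)
    (htop : ∀ M : Submodule A V, (∀ i, i ∉ Jb → ∀ v : V, e i • v ∈ M) → M = ⊤)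
    (hab : ∀ i ∈ Jb, ∀ j ∈ Ja, ∀ a : A, e i * a * e j ∈ thru e (fun l => l ∉ Ja ∧ l ∉ Jb))
    (hthin : ∀ i, i ∉ Ja → i ∉ Jb → dv K e (⊤ : Submodule A V) i ≤ 1)
    (N : Submodule A V) (hN : N ≠ ⊥) (hNt : N ≠ ⊤) :
    ∃ c : ι → ℤ, Valid K V e c ∧ ∑ i, c i * (dv K e N i : ℤ) < 0 := by
  let J2 : Finset (Option ι) := Jb.map Function.Embedding.some
  have hJ2s : ∀ i, some i ∈ J2 ↔ i ∈ Jb := fun i => by simp [J2]
  have hJ2n : none ∉ J2 := by simp [J2]
  have he1 := mg_complete he Ja
  have he2 := mg_complete he1 J2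
  have hq : mg (mg e Ja) J2 none = ∑ i ∈ Jb, e i := by
    change ∑ o ∈ J2, mg e Ja o = _
    rw [Finset.sum_map]
    refine Finset.sum_congr rfl fun i hi => ?_
    exact if_neg (fun h => hd i h hi)
  have hp : mg (mg e Ja) J2 (some none) = ∑ i ∈ Ja, e i := if_neg hJ2n
  have hs : ∀ i, i ∉ Ja → i ∉ Jb → mg (mg e Ja) J2 (some (some i)) = e i := by
    intro i h1 h2
    have h3 : mg (mg e Ja) J2 (some (some i)) = mg e Ja (some i) :=
      if_neg (fun h => h2 ((hJ2s i).1 h))
    rw [h3]
    exact if_neg h1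
  have hmulJ : ∀ (J : Finset ι) (i : ι), i ∈ J → e i * (∑ l ∈ J, e l) = e i := by
    intro J i hi
    rw [Finset.mul_sum, Finset.sum_eq_single i (fun l _ hl => he.ortho (Ne.symm hl))
      (fun h => absurd hi h)]
    exact he.idem i
  have hmulJ' : ∀ (J : Finset ι) (i : ι), i ∈ J → (∑ l ∈ J, e l) * e i = e i := by
    intro J i hi
    rw [Finset.sum_mul, Finset.sum_eq_single i (fun l _ hl => he.ortho hl)
      (fun h => absurd hi h)]
    exact he.idem i
  obtain ⟨c2, hc2, hc2N⟩ := exists_weight_two (K := K) he2 hb (some none) none (by simp)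
    (fun v hv => hsoc v fun i hi a => by
      by_cases hib : i ∈ Jb
      · have h1 := hv none (by simp) a
        rw [hq] at h1
        rw [← hmulJ Jb i hib, mul_assoc, mul_smul, h1, smul_zero]
      · have h1 := hv (some (some i)) (by simp) a
        rwa [hs i hi hib] at h1)
    (fun M hM => htop M fun i hi v => by
      by_cases hia : i ∈ Ja
      · have h1 := hM (some none) (by simp) (e i • v)
        rwa [hp, ← mul_smul, hmulJ' Ja i hia] at h1
      · have h1 := hM (some (some i)) (by simp) v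
        rwa [hs i hia hi] at h1)
    (fun a v => by
      rw [hq, hp]
      have hz : (∑ i ∈ Jb, e i) * a * (∑ i ∈ Ja, e i) ∈ thru e (fun l => l ∉ Ja ∧ l ∉ Jb) := by
        rw [Finset.sum_mul, Finset.sum_mul]
        refine AddSubgroup.sum_mem _ fun i hi => ?_
        rw [Finset.mul_sum]
        exact AddSubgroup.sum_mem _ fun j hj => hab i hi j hj a
      have key : ∀ z ∈ thru e (fun l => l ∉ Ja ∧ l ∉ Jb),
          (∑ i ∈ Jb, e i) • z • (∑ i ∈ Ja, e i) • v ∈ Submodule.span K
            {z : V | ∃ i, (i ≠ some none ∧ i ≠ none) ∧ ∃ x y : A,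
              z = (∑ i ∈ Jb, e i) • x • mg (mg e Ja) J2 i • y • (∑ i ∈ Ja, e i) • v} := by
        intro z hz
        induction hz using AddSubgroup.closure_induction with
        | mem z hz =>
          obtain ⟨l, ⟨hl1, hl2⟩, x, y, rfl⟩ := hz
          refine Submodule.subset_span ⟨some (some l), by simp, x, y, ?_⟩
          rw [hs l hl1 hl2, mul_smul, mul_smul]
        | zero => simp
        | add x y _ _ hx hy =>
          rw [add_smul, smul_add]
          exact Submodule.add_mem _ hx hy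
        | neg x _ hx =>
          rw [neg_smul, smul_neg]
          exact Submodule.neg_mem _ hx
      have h1 := key _ hz
      have h2 : (∑ i ∈ Jb, e i) • ((∑ i ∈ Jb, e i) * a * (∑ i ∈ Ja, e i)) •
          (∑ i ∈ Ja, e i) • v = (∑ i ∈ Jb, e i) • a • (∑ i ∈ Ja, e i) • v := by
        rw [← mul_smul, ← mul_smul, ← mul_smul, ← mul_smul]
        congr 1
        have h3 := (he.toOrthogonalIdempotents.isIdempotentElem_sum (s := Jb)).eq
        have h4 := (he.toOrthogonalIdempotents.isIdempotentElem_sum (s := Ja)).eq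
        calc (∑ i ∈ Jb, e i) * ((∑ i ∈ Jb, e i) * a * (∑ i ∈ Ja, e i)) * (∑ i ∈ Ja, e i)
            = ((∑ i ∈ Jb, e i) * (∑ i ∈ Jb, e i)) * a *
                ((∑ i ∈ Ja, e i) * (∑ i ∈ Ja, e i)) := by
              simp only [mul_assoc]
          _ = (∑ i ∈ Jb, e i) * a * (∑ i ∈ Ja, e i) := by
              rw [h3, h4]
      rwa [h2] at h1)
    (by
      rintro (_ | _ | i) ⟨h1, h2⟩
      · exact absurd rfl h2
      · exact absurd rfl h1
      · rw [dv_mg_some, dv_mg_some]
        by_cases hib : some i ∈ J2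
        · rw [if_pos hib]
          exact Nat.zero_le 1
        · rw [if_neg hib]
          by_cases hia : i ∈ Ja
          · rw [if_pos hia]
            exact Nat.zero_le 1
          · rw [if_neg hia]
            exact hthin i hia fun h => hib ((hJ2s i).2 h)) N hN hNt
  obtain ⟨c1, hc1⟩ := unmerge (K := K) (V := V) he1 J2 c2
  obtain ⟨c, hc⟩ := unmerge (K := K) (V := V) he Ja c1
  refine ⟨c, ⟨?_, fun M => ?_⟩, ?_⟩
  · rw [hc, hc1]
    exact hc2.1
  · rw [hc, hc1]
    exact hc2.2 M
  · rw [hc, hc1]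
    exact hc2N

include he in
theorem exists_stable_two (hb : ∀ N N' : Submodule A V, IsCompl N N' → N = ⊥ ∨ N' = ⊥)
    (Ja Jb : Finset ι) (hd : ∀ i, i ∈ Ja → i ∉ Jb)
    (hsoc : ∀ v : V, (∀ i, i ∉ Ja → ∀ a : A, (e i * a) • v = 0) → v = 0)
    (htop : ∀ M : Submodule A V, (∀ i, i ∉ Jb → ∀ v : V, e i • v ∈ M) → M = ⊤)
    (hab : ∀ i ∈ Jb, ∀ j ∈ Ja, ∀ a : A, e i * a * e j ∈ thru e (fun l => l ∉ Ja ∧ l ∉ Jb))
    (hthin : ∀ i, i ∉ Ja → i ∉ Jb → dv K e (⊤ : Submodule A V) i ≤ 1) :
    ∃ c : ι → ℤ, ∑ i, c i * (dv K e (⊤ : Submodule A V) i : ℤ) = 0 ∧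
      ∀ N : Submodule A V, N ≠ ⊥ → N ≠ ⊤ → ∑ i, c i * (dv K e N i : ℤ) < 0 := by
  let T : Set (ι → ℕ) := {ν | ∃ N : Submodule A V, N ≠ ⊥ ∧ N ≠ ⊤ ∧ ∀ i, dv K e N i = ν i}
  have hfin : T.Finite := by
    refine (Set.Finite.pi (ι := ι) (t := fun _ => Set.Iic (finrank K V))
      fun _ => Set.finite_Iic _).subset ?_
    rintro ν ⟨N, _, _, hν⟩ i _
    rw [← hν i]
    exact Submodule.finrank_le _
  obtain ⟨c, hc, hcT⟩ := exists_common (K := K) (V := V) (e := e) T hfin
    (fun ν hν => by
      obtain ⟨N, _, _, h⟩ := hν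
      exact ⟨N, h⟩)
    (fun ν hν => by
      obtain ⟨N, h1, h2, h⟩ := hν
      obtain ⟨c, hc, hcN⟩ := exists_weight_two_J he hb Ja Jb hd hsoc htop hab hthin N h1 h2
      refine ⟨c, hc, ?_⟩
      simp only [h] at hcN
      exact hcN)
  exact ⟨c, hc.1, fun N h1 h2 => hcT (fun i => dv K e N i) ⟨N, h1, h2, fun _ => rfl⟩⟩

include he in
/-- Bricks whose repeated composition factors are pairwise not adjacent, except through
non-repeated ones. -/
theorem exists_stable_brick [Module.Finite K A] (hb : Brick K A V)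
    (hbasic : ∀ (j : ι) (a : A), ∃ c : K, e j * a * e j - c • e j ∈ Ring.jacobson A)
    (J : Finset ι) (hJ : ∀ i ∈ J, ∀ j ∈ J, i ≠ j → ∀ a : A,
      e i * a * e j ∈ thru e (fun l => l ∉ J))
    (hthin : ∀ i, i ∉ J → dv K e (⊤ : Submodule A V) i ≤ 1) :
    ∃ c : ι → ℤ, ∑ i, c i * (dv K e (⊤ : Submodule A V) i : ℤ) = 0 ∧
      ∀ N : Submodule A V, N ≠ ⊥ → N ≠ ⊤ → ∑ i, c i * (dv K e N i : ℤ) < 0 := by
  classical
  by_cases hsimple : ∀ N : Submodule A V, N = ⊥ ∨ N = ⊤
  · refine ⟨fun _ => 0, by simp, fun N h1 h2 => ?_⟩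
    rcases hsimple N with h3 | h3
    · exact absurd h3 h1
    · exact absurd h3 h2
  let Q : ι → Prop := fun j => ∀ v : V, (∀ i, i ≠ j → ∀ a : A, (e i * a) • v = 0) → v = 0
  let Ja : Finset ι := J.filter Q
  let Jb : Finset ι := J.filter fun j => ¬ Q j
  have hJa : ∀ i, i ∈ Ja ↔ i ∈ J ∧ Q i := fun i => Finset.mem_filter
  have hJb : ∀ i, i ∈ Jb ↔ i ∈ J ∧ ¬ Q i := fun i => Finset.mem_filter
  have hnot : ∀ l, (l ∉ Ja ∧ l ∉ Jb) ↔ l ∉ J := by
    intro l
    rw [hJa, hJb]
    tauto
  have hthru : thru e (fun l => l ∉ Ja ∧ l ∉ Jb) = thru e (fun l => l ∉ J) := by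
    congr 1
    funext l
    exact propext (hnot l)
  -- elements of `thru` act through the thin components
  have hz : ∀ z ∈ thru e (fun l => l ∉ J), ∀ v : V,
      (∀ i, i ∉ J → ∀ a : A, (e i * a) • v = 0) → z • v = 0 := by
    intro z hz v hv
    induction hz using AddSubgroup.closure_induction with
    | mem z hz =>
      obtain ⟨l, hl, x, y, rfl⟩ := hz
      rw [mul_assoc, mul_smul, hv l hl y, smul_zero]
    | zero => exact zero_smul _ _
    | add x y _ _ hx hy => rw [add_smul, hx, hy, add_zero]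
    | neg x _ hx => rw [neg_smul, hx, neg_zero]
  have hz' : ∀ z ∈ thru e (fun l => l ∉ J), ∀ (M : Submodule A V),
      (∀ i, i ∉ J → ∀ v : V, e i • v ∈ M) → ∀ v : V, z • v ∈ M := by
    intro z hz M hM v
    induction hz using AddSubgroup.closure_induction with
    | mem z hz =>
      obtain ⟨l, hl, x, y, rfl⟩ := hz
      rw [mul_smul, mul_smul]
      exact M.smul_mem _ (hM l hl _)
    | zero =>
      rw [zero_smul]
      exact M.zero_mem
    | add x y _ _ hx hy =>
      rw [add_smul]
      exact M.add_mem hx hy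
    | neg x _ hx =>
      rw [neg_smul]
      exact M.neg_mem hx
  refine exists_stable_two he (fun N N' h => hb.indec h) Ja Jb
    (fun i h1 h2 => ((hJb i).1 h2).2 ((hJa i).1 h1).2) ?_ ?_ ?_ ?_
  · -- no submodule is concentrated on `Ja`
    intro v hv
    have hcomp : ∀ j, e j • v = 0 := by
      intro j
      by_cases hj : j ∈ Ja
      · refine ((hJa j).1 hj).2 _ fun i hi a => ?_
        by_cases hia : i ∈ Ja
        · rw [← mul_smul]
          have h1 := hJ i ((hJa i).1 hia).1 j ((hJa j).1 hj).1 hi a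
          exact hz _ h1 v fun l hl a => hv l (fun h => hl ((hJa l).1 h).1) a
        · rw [← mul_smul, mul_assoc]
          exact hv i hia _
      · have h1 := hv j hj 1
        rwa [mul_one] at h1
    rw [← sum_smul_eq he v]
    exact Finset.sum_eq_zero fun j _ => hcomp j
  · -- no quotient is concentrated on `Jb`
    intro M hM
    have hthinM : ∀ i, i ∉ J → ∀ v : V, e i • v ∈ M := fun i hi v =>
      hM i (fun h => hi ((hJb i).1 h).1) v
    have hcomp : ∀ j, ∀ v : V, e j • v ∈ M := by
      intro j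
      by_cases hj : j ∈ Jb
      · have hnq := ((hJb j).1 hj).2
        have htj : ∀ M : Submodule A V, (∀ i, i ≠ j → ∀ v : V, e i • v ∈ M) → M = ⊤ := by
          rcases socle_or_top he hb j (hbasic j) with h | h | h
          · exact absurd h hnq
          · exact h
          · exact absurd h hsimple
        let Mj : Submodule A V :=
          { carrier := {v | ∀ a : A, (e j * a) • v ∈ M}
            add_mem' := fun {v w} hv hw a => by
              rw [smul_add]
              exact M.add_mem (hv a) (hw a)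
            zero_mem' := fun a => by
              rw [smul_zero]
              exact M.zero_mem
            smul_mem' := fun b v hv a => by
              rw [← mul_smul, mul_assoc]
              exact hv _ }
        have hMj : Mj = ⊤ := by
          refine htj Mj fun i hi v a => ?_
          rw [← mul_smul]
          by_cases hib : i ∈ Jb
          · exact hz' _ (hJ j ((hJb j).1 hj).1 i ((hJb i).1 hib).1 (Ne.symm hi) a) M hthinM v
          · rw [mul_smul]
            exact M.smul_mem _ (hM i hib v)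
        intro v
        have h1 : v ∈ Mj := by
          rw [hMj]
          exact Submodule.mem_top
        have h2 := h1 1
        rwa [mul_one] at h2
      · exact hM j hj
    rw [eq_top_iff]
    intro v _
    rw [← sum_smul_eq he v]
    exact Submodule.sum_mem _ fun j _ => hcomp j v
  · intro i hi j hj a
    rw [hthru]
    exact hJ i ((hJb i).1 hi).1 j ((hJa j).1 hj).1
      (by rintro rfl; exact ((hJb _).1 hi).2 ((hJa _).1 hj).2) a
  · intro i h1 h2
    exact hthin i ((hnot i).1 ⟨h1, h2⟩)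

end

end W5h64.SB
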