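/-
Bricks with sparse repeated composition factors are stable.
-/
import Pool.Agent.W5h64.SB.TwoJ

namespace W5h64.SB

open Module

universe u

section

variable {K A V : Type u} [Field K] [Ring A] [Algebra K A] [AddCommGroup V] [Module K V]

/-- The repeated composition factors of the module `M` given by `f` are sparse. Call `j` repeated
if `dim e_j M ≥ 2`. Either the repeated indices can be divided into two groups `Ja` and `Jb` such
that no nonzero submodule of `M` is concentrated on `Ja`, no nonzero quotient of `M` is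
concentrated on `Jb`, and for `i ∈ Jb` and `j ∈ Ja` the elements of `e_i A e_j` lie in the ideal
generated by the non-repeated idempotents; or for any two distinct repeated `i`, `j` the elements
of `e_i A e_j` lie in that ideal. -/
def Sparse (f : A →ₐ[K] Module.End K V) {n : ℕ} (e : Fin n → A) : Prop :=
  (∃ Ja Jb : Finset (Fin n), (∀ j, 2 ≤ rk f (e j) ⊤ ↔ j ∈ Ja ∨ j ∈ Jb) ∧ (∀ j ∈ Ja, j ∉ Jb) ∧
    (∀ W : Submodule K V, IsSub f W → (∀ j, j ∉ Ja → rk f (e j) W = 0) → W = ⊥) ∧
    (∀ W : Submodule K V, IsSub f W → (∀ j, j ∉ Jb → rk f (e j) W = rk f (e j) ⊤) → W = ⊤) ∧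
    (∀ i ∈ Jb, ∀ j ∈ Ja, ∀ a : A, e i * a * e j ∈ thru e (fun l => rk f (e l) ⊤ ≤ 1))) ∨
  (∀ i j, i ≠ j → 2 ≤ rk f (e i) ⊤ → 2 ≤ rk f (e j) ⊤ →
    ∀ a : A, e i * a * e j ∈ thru e (fun l => rk f (e l) ⊤ ≤ 1))

theorem exists_isStab_sparse [FiniteDimensional K A] [FiniteDimensional K V]
    (f : A →ₐ[K] Module.End K V) {n : ℕ} (e : Fin n → A) (he : CompleteOrthogonalIdempotents e)
    (hbasic : ∀ (j : Fin n) (a : A), ∃ c : K, e j * a * e j - c • e j ∈ Ring.jacobson A)
    (hf : IsBrick f) (hsp : Sparse f e) : ∃ c : Fin n → ℤ, IsStab f e c := by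
  classical
  let _ : Module A V := Module.compHom V f.toRingHom
  have hst : IsScalarTower K A V := ⟨fun c a v => by
    change f (c • a) v = c • f a v
    rw [map_smul]
    rfl⟩
  have hact : ∀ a : A, act K V a = f a := fun a => LinearMap.ext fun v => rfl
  have hdv : ∀ (N : Submodule A V) (j : Fin n), dv K e N j = rk f (e j) (N.restrictScalars K) := by
    intro N j
    unfold dv rk
    rw [hact]
  have htopr : ((⊤ : Submodule A V).restrictScalars K) = ⊤ := rfl
  have hsub : ∀ N : Submodule A V, IsSub f (N.restrictScalars K) := fun N a v hv =>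
    N.smul_mem a hv
  have hbrick : Brick K A V := by
    intro φ
    obtain ⟨c, hc⟩ := hf (φ.restrictScalars K) (fun a => LinearMap.ext fun v => map_smul φ a v)
    exact ⟨c, fun v => LinearMap.congr_fun hc v⟩
  have hind : ∀ N N' : Submodule A V, IsCompl N N' → N = ⊥ ∨ N' = ⊥ := fun N N' h =>
    hbrick.indec h
  have hbot : ∀ N : Submodule A V, N.restrictScalars K = ⊥ → N = ⊥ := by
    intro N h
    rw [eq_bot_iff]
    intro x hx
    have h1 : x ∈ N.restrictScalars K := hx
    rw [h] at h1
    exact (Submodule.mem_bot A).2 ((Submodule.mem_bot K).1 h1)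
  have htop : ∀ N : Submodule A V, N.restrictScalars K = ⊤ → N = ⊤ := by
    intro N h
    rw [eq_top_iff]
    intro x _
    have h1 : x ∈ N.restrictScalars K := by
      rw [h]
      exact Submodule.mem_top
    exact h1
  have hconc : (∃ c : Fin n → ℤ, ∑ i, c i * (dv K e (⊤ : Submodule A V) i : ℤ) = 0 ∧
      ∀ N : Submodule A V, N ≠ ⊥ → N ≠ ⊤ → ∑ i, c i * (dv K e N i : ℤ) < 0) →
      ∃ c : Fin n → ℤ, IsStab f e c := by
    rintro ⟨c, hc, hcN⟩
    refine ⟨c, ?_, fun W hW h1 h2 => ?_⟩
    · simp only [hdv, htopr] at hc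
      exact hc
    · let N : Submodule A V := { W with smul_mem' := fun a v hv => hW a v hv }
      have hN : N.restrictScalars K = W := by
        ext x
        rfl
      have h3 := hcN N (fun h => h1 (by rw [← hN, h]; rfl)) (fun h => h2 (by rw [← hN, h]; rfl))
      simp only [hdv, hN] at h3
      exact h3
  rcases hsp with ⟨Ja, Jb, hJ, hdis, hsoc, htp, hab⟩ | hN
  · have hthin : ∀ i, i ∉ Ja → i ∉ Jb → rk f (e i) ⊤ ≤ 1 := by
      intro i h1 h2
      by_contra h
      rcases (hJ i).1 (by omega) with h3 | h3
      · exact h1 h3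
      · exact h2 h3
    have hpred : (fun l => l ∉ Ja ∧ l ∉ Jb) = fun l => rk f (e l) ⊤ ≤ 1 := by
      funext l
      refine propext ⟨fun h => hthin l h.1 h.2, fun h => ?_⟩
      constructor
      · intro h1
        have := (hJ l).2 (Or.inl h1)
        omega
      · intro h1
        have := (hJ l).2 (Or.inr h1)
        omega
    refine hconc (exists_stable_two he hind Ja Jb hdis (fun v hv => ?_) (fun M hM => ?_) ?_ ?_)
    · let Z : Submodule A V :=
        { carrier := {v | ∀ i, i ∉ Ja → ∀ a : A, (e i * a) • v = 0}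
          add_mem' := fun {v w} hv hw i hi a => by rw [smul_add, hv i hi a, hw i hi a, add_zero]
          zero_mem' := fun i _ a => smul_zero _
          smul_mem' := fun b v hv i hi a => by
            rw [← mul_smul, mul_assoc]
            exact hv i hi _ }
      have h1 : Z.restrictScalars K = ⊥ := by
        refine hsoc _ (hsub Z) fun i hi => ?_
        have h2 : (Z.restrictScalars K).map (f (e i)) = ⊥ := by
          rw [eq_bot_iff]
          rintro _ ⟨w, hw, rfl⟩
          have h3 := hw i hi 1
          rw [mul_one] at h3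
          exact (Submodule.mem_bot K).2 h3
        unfold rk
        rw [h2, finrank_bot]
      have h4 : v ∈ Z := hv
      rw [hbot Z h1] at h4
      exact (Submodule.mem_bot A).1 h4
    · refine htop M (htp _ (hsub M) fun i hi => ?_)
      have h2 : (M.restrictScalars K).map (f (e i)) = (⊤ : Submodule K V).map (f (e i)) := by
        apply le_antisymm (Submodule.map_mono le_top)
        rintro _ ⟨w, _, rfl⟩
        refine ⟨f (e i) w, hM i hi w, ?_⟩
        exact idem_smul he i w
      unfold rk
      rw [h2]
    · intro i hi j hj a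
      rw [hpred]
      exact hab i hi j hj a
    · intro i h1 h2
      rw [hdv, htopr]
      exact hthin i h1 h2
  · let J : Finset (Fin n) := Finset.univ.filter fun i => 2 ≤ rk f (e i) ⊤
    have hJ : ∀ i, i ∈ J ↔ 2 ≤ rk f (e i) ⊤ := fun i => by simp [J]
    have hpred : (fun l => l ∉ J) = fun l => rk f (e l) ⊤ ≤ 1 := by
      funext l
      refine propext ⟨fun h => ?_, fun h h1 => ?_⟩
      · rw [hJ] at h
        omega
      · have := (hJ l).1 h1
        omega
    refine hconc (exists_stable_brick he hbrick hbasic J (fun i hi j hj hij a => ?_)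
      (fun i hi => ?_))
    · rw [hpred]
      exact hN i j hij ((hJ i).1 hi) ((hJ j).1 hj) a
    · rw [hdv, htopr]
      rw [hJ] at hi
      omega

end

end W5h64.SB
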